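import Mathlib

set_option autoImplicit false

/-! # MP_7f688b_an (S05202): seven unit cubes in `ℝ⁵` whose union `E` is spectral (Petrescu's 7x7
complex Hadamard matrix) but `1_E` is not the window of an orthogonal Gabor basis. Tasks. -/

namespace Pool.Agent.H75R4.Gab

open MeasureTheory Complex
open scoped ENNReal

abbrev V := EuclideanSpace ℝ (Fin 5)

/-- the seven corners; all differences are distinct and even -/
def YZ : Fin 7 → Fin 5 → ℤ :=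
  ![![0, 0, 0, 0, 0], ![2, 0, 0, 0, 0], ![-2, -8, -4, 0, 0], ![0, 14, 0, 0, 0],
    ![0, 0, 0, 0, 2], ![0, 0, 0, 2, 0], ![0, 0, 6, -2, 0]]

/-- 72 times the seven frequencies -/
def BZ : Fin 7 → Fin 5 → ℤ :=
  ![![0, 0, 0, 0, 0], ![7, 30, 32, 18, 18], ![25, 18, 20, 18, 30], ![30, 11, 8, 6, 23],
    ![18, 29, 8, 6, 5], ![18, 6, 6, 24, 6], ![6, 18, 30, 30, 18]]

/-- integer vector as a point -/
noncomputable def iv (n : Fin 5 → ℤ) : V := WithLp.toLp 2 (fun i => (n i : ℝ))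

/-- the frequencies -/
noncomputable def bv (k : Fin 7) : V := WithLp.toLp 2 (fun i => (BZ k i : ℝ) / 72)

/-- half open unit cube with corner `c` -/
def cube (c : V) : Set V := {x | ∀ i, c i ≤ x i ∧ x i < c i + 1}

/-- the set: seven unit cubes -/
def E : Set V := ⋃ j, cube (iv (YZ j))

/-- exponential sum over the corners -/
noncomputable def W (β : V) : ℂ :=
  ∑ j, exp (2 * (Real.pi : ℂ) * I * ((inner ℝ (iv (YZ j)) β : ℝ) : ℂ))

/-- Gabor function (exactly the one of the frozen statement) -/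
noncomputable def G (s : V × V) (x : V) : ℂ :=
  E.indicator (fun _ => (1 : ℂ)) (x - s.1) *
    exp (-(2 * (Real.pi : ℂ) * I * ((inner ℝ x s.2 : ℝ) : ℂ)))

def Orth (S : Set (V × V)) : Prop :=
  ∀ p ∈ S, ∀ q ∈ S, p ≠ q → ∫ x, G p x * starRingEnd ℂ (G q x) = 0

def Compl (S : Set (V × V)) : Prop :=
  ∀ f : V → ℂ, MemLp f 2 volume → (∀ p ∈ S, ∫ x, f x * starRingEnd ℂ (G p x) = 0) →
    f =ᵐ[volume] 0

/-- elements of `S` in the frequency window `n` whose translate of `E` contains `x` -/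
def Mset (S : Set (V × V)) (x : V) (n : Fin 5 → ℤ) : Set (V × V) :=
  {s | s ∈ S ∧ x - s.1 ∈ E ∧ s.2 ∈ cube (iv n)}

/-- test function: exponential on the unit cube at `x₀` -/
noncomputable def F (x₀ : V) (k : Fin 5 → ℤ) (x : V) : ℂ :=
  (cube x₀).indicator (fun _ => (1 : ℂ)) x *
    exp (-(2 * (Real.pi : ℂ) * I * ((inner ℝ x (iv k) : ℝ) : ℂ)))

noncomputable def rho (m : ℤ) : ℝ := 2 / (1 + (m : ℝ) ^ 2)

/-- TASK Had: the 7x7 matrix is a complex Hadamard matrix (vanishing sums of 36th roots of unity). -/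
def TaskHad : Prop := ∀ k l : Fin 7, k ≠ l → W (bv k - bv l) = 0

/-- TASK Four: completeness of the exponentials on the unit cube (multi-dimensional Fourier
series; Mathlib `UnitAddTorus.mFourierBasis` / `span_mFourierLp_closure_eq_top`, or induction). -/
def TaskFour : Prop :=
  ∀ f : V → ℂ, MemLp f 2 (volume.restrict (cube 0)) →
    (∀ n : Fin 5 → ℤ, ∫ x in cube 0, f x *
      exp (-(2 * (Real.pi : ℂ) * I * ((inner ℝ x (iv n) : ℝ) : ℂ))) = 0) →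
    f =ᵐ[volume.restrict (cube 0)] 0

/-- TASK Meas -/
def TaskMeas : Prop := MeasurableSet E ∧ volume E = 7 ∧ ∀ c : V, volume (cube c) = 1

/-- `E` is spectral, in the words of the frozen statement -/
def Spectral : Prop :=
  ∃ Λ : Set V,
      (∀ l ∈ Λ, ∀ l' ∈ Λ, l ≠ l' →
        ∫ x in E, exp (2 * (Real.pi : ℂ) * I * ((inner ℝ x (l - l') : ℝ) : ℂ)) = 0) ∧
      (∀ f : V → ℂ, MemLp f 2 (volume.restrict E) →
        (∀ l ∈ Λ, ∫ x in E, f x * exp (-(2 * (Real.pi : ℂ) * I * ((inner ℝ x l : ℝ) : ℂ))) = 0) →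
        f =ᵐ[volume.restrict E] 0)

/-- TASK Spec: `Λ = {bv k + iv n}`. -/
def TaskSpec : Prop := TaskHad → TaskFour → TaskMeas → Spectral

/-- TASK Box: an exponential has nonzero integral over a box of sides at most one if its frequency
is less than one in each coordinate. -/
def TaskBox : Prop :=
  ∀ (l u : Fin 5 → ℝ) (β : V), (∀ i, l i < u i) → (∀ i, u i - l i ≤ 1) → (∀ i, |β i| < 1) →
    ∫ x in {x : V | ∀ i, l i ≤ x i ∧ x i < u i},
      exp (-(2 * (Real.pi : ℂ) * I * ((inner ℝ x β : ℝ) : ℂ))) ≠ 0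

/-- TASK Pair -/
def TaskPair : Prop :=
  TaskBox → ∀ a a' b b' x : V, x - a ∈ E → x - a' ∈ E → (∀ i, |b i - b' i| < 1) →
    ∫ z, G (a, b) z * starRingEnd ℂ (G (a', b') z) = 0 →
    (∃ j, x - a ∈ cube (iv (YZ j)) ∧ x - a' ∈ cube (iv (YZ j))) ∧ W (b - b') = 0

/-- The conclusion of TASK Pair -/
def PairC : Prop :=
  ∀ a a' b b' x : V, x - a ∈ E → x - a' ∈ E → (∀ i, |b i - b' i| < 1) →
    ∫ z, G (a, b) z * starRingEnd ℂ (G (a', b') z) = 0 →
    (∃ j, x - a ∈ cube (iv (YZ j)) ∧ x - a' ∈ cube (iv (YZ j))) ∧ W (b - b') = 0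

/-- TASK Count: at most seven (pairwise orthogonal vectors in `ℂ⁷`). -/
def TaskCount : Prop :=
  PairC → ∀ S, Orth S → ∀ x n, (Mset S x n).encard ≤ 7

/-- TASK Pars: Parseval (`‖G s‖² = 7`). -/
def TaskPars : Prop :=
  TaskMeas → ∀ S, Orth S → Compl S → S.Countable ∧ ∀ f : V → ℂ, MemLp f 2 volume →
    HasSum (fun s : S => ‖∫ x, f x * starRingEnd ℂ (G s x)‖ ^ 2) (7 * ∫ x, ‖f x‖ ^ 2)

/-- TASK Bes: Bessel's inequality on the unit cube for one Gabor function. -/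
def TaskBes : Prop :=
  TaskMeas → ∀ (x₀ : V) (s : V × V) (K : Finset (Fin 5 → ℤ)),
    ∑ k ∈ K, ‖∫ x, F x₀ k x * starRingEnd ℂ (G s x)‖ ^ 2 ≤
      (volume (cube x₀ ∩ {x | x - s.1 ∈ E})).toReal

/-- TASK Dec: decay. -/
def TaskDec : Prop :=
  ∀ (x₀ : V) (s : V × V) (k n : Fin 5 → ℤ), s.2 ∈ cube (iv n) →
    ‖∫ x, F x₀ k x * starRingEnd ℂ (G s x)‖ ^ 2 ≤ ∏ i, rho (k i - n i)

/-- TASK Meet: at most `32 * 7` elements in a window meet a given unit cube. -/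
def TaskMeet : Prop :=
  ∀ S : Set (V × V), (∀ x n, (Mset S x n).encard ≤ 7) → ∀ x₀ n,
    {s | s ∈ S ∧ s.2 ∈ cube (iv n) ∧ (cube x₀ ∩ {x | x - s.1 ∈ E}).Nonempty}.encard ≤ 224

/-- TASK Vol -/
def TaskVol : Prop :=
  MeasurableSet E → ∀ S : Set (V × V), S.Countable → ∀ n : Fin 5 → ℤ,
    Measurable (fun x : V => ((Mset S x n).encard : ℝ≥0∞)) ∧
    ∀ x₀ : V, ∑' s : {s : V × V // s ∈ S ∧ s.2 ∈ cube (iv n)},
        volume (cube x₀ ∩ {x | x - s.1.1 ∈ E}) =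
      ∫⁻ x in cube x₀, ((Mset S x n).encard : ℝ≥0∞)

/-- TASK Num: a purely numerical tail bound. -/
def TaskNum : Prop :=
  ∀ ε : ℝ, 0 < ε → ∃ K N : Finset (Fin 5 → ℤ), K.Nonempty ∧ (N.card : ℝ) ≤ (1 + ε) * K.card ∧
    ∀ N' : Finset (Fin 5 → ℤ), Disjoint N' N →
      ∑ n ∈ N', ∑ k ∈ K, ∏ i, rho (k i - n i) ≤ ε * K.card

/-- Saturated windows exist for every finite set of positions. -/
def Sat (S : Set (V × V)) : Prop :=
  ∀ P : Finset V, ∃ n : Fin 5 → ℤ, ∃ z ∈ cube 0, ∀ f ∈ P, (Mset S (z + f) n).encard = 7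

/-- TASK Avg -/
def TaskAvg : Prop :=
  ∀ S : Set (V × V), S.Countable →
    (∀ f : V → ℂ, MemLp f 2 volume →
      HasSum (fun s : S => ‖∫ x, f x * starRingEnd ℂ (G s x)‖ ^ 2) (7 * ∫ x, ‖f x‖ ^ 2)) →
    (∀ (x₀ : V) (s : V × V) (K : Finset (Fin 5 → ℤ)),
      ∑ k ∈ K, ‖∫ x, F x₀ k x * starRingEnd ℂ (G s x)‖ ^ 2 ≤
        (volume (cube x₀ ∩ {x | x - s.1 ∈ E})).toReal) →
    TaskDec → TaskMeas → TaskNum →
    (∀ x₀ n, {s | s ∈ S ∧ s.2 ∈ cube (iv n) ∧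
      (cube x₀ ∩ {x | x - s.1 ∈ E}).Nonempty}.encard ≤ 224) →
    (∀ n : Fin 5 → ℤ, Measurable (fun x : V => ((Mset S x n).encard : ℝ≥0∞)) ∧
      ∀ x₀ : V, ∑' s : {s : V × V // s ∈ S ∧ s.2 ∈ cube (iv n)},
        volume (cube x₀ ∩ {x | x - s.1.1 ∈ E}) =
      ∫⁻ x in cube x₀, ((Mset S x n).encard : ℝ≥0∞)) →
    (∀ x n, (Mset S x n).encard ≤ 7) → Sat S

/-- TASK Comb: the seven points do not tile `ℤ⁵`. -/
def TaskComb : Prop :=
  ¬ ∃ T : (Fin 5 → ℤ) → Prop, ∀ x : Fin 5 → ℤ, ∃! j : Fin 7, T (fun i => x i - YZ j i)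

/-- TASK Tile: from saturated windows to a tiling of `ℤ⁵` (ultrafilter on finite sets / on ℕ). -/
def TaskTile : Prop :=
  PairC → ∀ S, Orth S → Sat S → ∃ T : (Fin 5 → ℤ) → Prop, ∀ x : Fin 5 → ℤ,
    ∃! j : Fin 7, T (fun i => x i - YZ j i)

end Pool.Agent.H75R4.Gab
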