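import Pool.Agent.H75R4.Gab.Stmts

set_option autoImplicit false

namespace Pool.Agent.H75R4.Gab

open MeasureTheory Complex
open scoped ENNReal

theorem assemble (hHad : TaskHad) (hFour : TaskFour) (hMeas : TaskMeas) (hSpec : TaskSpec)
    (hBox : TaskBox) (hPair : TaskPair) (hCount : TaskCount) (hPars : TaskPars) (hBes : TaskBes)
    (hDec : TaskDec) (hMeet : TaskMeet) (hVol : TaskVol) (hNum : TaskNum) (hAvg : TaskAvg)
    (hComb : TaskComb) (hTile : TaskTile) :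
    ¬ (∀ (d : ℕ) (E : Set (EuclideanSpace ℝ (Fin d))),
    MeasurableSet E → 0 < volume E → volume E < ⊤ →
    (∃ Λ : Set (EuclideanSpace ℝ (Fin d)),
      (∀ l ∈ Λ, ∀ l' ∈ Λ, l ≠ l' →
        ∫ x in E, Complex.exp (2 * (Real.pi : ℂ) * Complex.I * ((inner ℝ x (l - l') : ℝ) : ℂ)) = 0) ∧
      (∀ f : EuclideanSpace ℝ (Fin d) → ℂ, MemLp f 2 (volume.restrict E) →
        (∀ l ∈ Λ, ∫ x in E, f x * Complex.exp (-(2 * (Real.pi : ℂ) * Complex.I * ((inner ℝ x l : ℝ) : ℂ))) = 0) →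
        f =ᵐ[volume.restrict E] 0)) →
    ∃ S : Set (EuclideanSpace ℝ (Fin d) × EuclideanSpace ℝ (Fin d)),
      (∀ p ∈ S, ∀ q ∈ S, p ≠ q →
        ∫ x, (E.indicator (fun _ => (1 : ℂ)) (x - p.1) *
              Complex.exp (-(2 * (Real.pi : ℂ) * Complex.I * ((inner ℝ x p.2 : ℝ) : ℂ)))) *
            starRingEnd ℂ (E.indicator (fun _ => (1 : ℂ)) (x - q.1) *
              Complex.exp (-(2 * (Real.pi : ℂ) * Complex.I * ((inner ℝ x q.2 : ℝ) : ℂ)))) = 0) ∧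
      (∀ f : EuclideanSpace ℝ (Fin d) → ℂ, MemLp f 2 volume →
        (∀ p ∈ S, ∫ x, f x * starRingEnd ℂ (E.indicator (fun _ => (1 : ℂ)) (x - p.1) *
              Complex.exp (-(2 * (Real.pi : ℂ) * Complex.I * ((inner ℝ x p.2 : ℝ) : ℂ)))) = 0) →
        f =ᵐ[volume] 0)) := by
  intro h
  obtain ⟨S, hS1, hS2⟩ := h 5 E hMeas.1 (by rw [hMeas.2.1]; norm_num) (by rw [hMeas.2.1]; exact ENNReal.ofNat_lt_top)
    (hSpec hHad hFour hMeas)
  have hO : Orth S := hS1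
  have hC : Compl S := hS2
  have hP : PairC := hPair hBox
  have h7 := hCount hP S hO
  obtain ⟨hcnt, hpars⟩ := hPars hMeas S hO hC
  have hsat : Sat S := hAvg S hcnt hpars (hBes hMeas) hDec hMeas hNum (hMeet S h7)
    (hVol hMeas.1 S hcnt) h7
  exact hComb (hTile hP S hO hsat)

end Pool.Agent.H75R4.Gab
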