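import Pool.Agent.H75R4.Gab.Stmts

set_option autoImplicit false

/-! # Task Dec of project H75-GABOR: decay of the windowed exponential integrals -/

namespace Pool.Agent.H75R4.Gab.Dec

open MeasureTheory Complex Pool.Agent.H75R4.Gab
open scoped ENNReal

/-- one dimensional exponential -/
noncomputable def e1 (β t : ℝ) : ℂ := exp (((2 * Real.pi * β * t : ℝ) : ℂ) * I)

lemma norm_e1 (β t : ℝ) : ‖e1 β t‖ = 1 := by
  unfold e1
  exact Complex.norm_exp_ofReal_mul_I _

lemma rho_nonneg (m : ℤ) : 0 ≤ rho m := by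
  unfold rho; positivity

lemma int_e1 (l u β : ℝ) (hβ : β ≠ 0) :
    ‖∫ t in l..u, e1 β t‖ ≤ 1 / (Real.pi * |β|) := by
  have hπ := Real.pi_pos
  have hc : (2 * (Real.pi : ℂ) * (β : ℂ) * I) ≠ 0 := by
    have h1 : (Real.pi : ℂ) ≠ 0 := by exact_mod_cast hπ.ne'
    have h2 : (β : ℂ) ≠ 0 := by exact_mod_cast hβ
    simp [h1, h2, I_ne_zero]
  have h : ∀ t : ℝ, e1 β t = exp (2 * (Real.pi : ℂ) * (β : ℂ) * I * t) := by
    intro t; unfold e1; congr 1; push_cast; ring
  simp_rw [h]
  rw [integral_exp_mul_complex hc]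
  rw [norm_div]
  have h3 : ‖exp (2 * (Real.pi : ℂ) * (β : ℂ) * I * u) - exp (2 * (Real.pi : ℂ) * (β : ℂ) * I * l)‖ ≤ 2 := by
    refine (norm_sub_le _ _).trans ?_
    rw [← h u, ← h l, norm_e1, norm_e1]; norm_num
  have h4 : ‖2 * (Real.pi : ℂ) * (β : ℂ) * I‖ = 2 * (Real.pi * |β|) := by
    simp [abs_of_pos hπ]; ring
  rw [h4]
  have h5 : 0 < Real.pi * |β| := mul_pos hπ (abs_pos.mpr hβ)
  rw [div_le_div_iff₀ (by positivity) h5]
  nlinarith

lemma oneD (l u β : ℝ) (m : ℤ) (hlu : u - l ≤ 1) (h1 : -(m : ℝ) ≤ β) (h2 : β < -(m : ℝ) + 1) :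
    ‖∫ t in Set.Ico l u, e1 β t‖ ^ 2 ≤ rho m := by
  have hA : ‖∫ t in Set.Ico l u, e1 β t‖ ≤ 1 := by
    have := norm_setIntegral_le_of_norm_le_const (μ := (volume : Measure ℝ)) (s := Set.Ico l u)
      (f := e1 β) (C := 1) (by simp) (fun t _ => (norm_e1 β t).le)
    refine this.trans ?_
    rw [one_mul]
    rw [Measure.real, Real.volume_Ico]
    exact ENNReal.toReal_le_of_le_ofReal zero_le_one (ENNReal.ofReal_le_ofReal hlu)
  by_cases hm : |m| ≤ 1
  · have h3 : (1 : ℝ) ≤ rho m := by
      unfold rho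
      have h4 : (m : ℝ) ^ 2 ≤ 1 := by
        have : m ^ 2 ≤ 1 := by
          rw [abs_le] at hm
          nlinarith [hm.1, hm.2]
        exact_mod_cast this
      rw [le_div_iff₀ (by positivity)]
      linarith
    have h0 := norm_nonneg (∫ t in Set.Ico l u, e1 β t)
    nlinarith
  · push Not at hm
    rcases lt_or_ge u l with hul | hul
    · have : Set.Ico l u = ∅ := Set.Ico_eq_empty (by linarith)
      rw [this]
      simp [rho_nonneg]
    rw [integral_Ico_eq_integral_Ioc, ← intervalIntegral.integral_of_le hul]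
    have hm2 : (2 : ℝ) ≤ |(m : ℝ)| := by
      have : 2 ≤ |m| := by omega
      exact_mod_cast this
    have hβ' : |(m : ℝ)| / 2 ≤ |β| := by
      rcases abs_cases (m : ℝ) with ⟨h5, h6⟩ | ⟨h5, h6⟩
      · rw [h5] at hm2 ⊢
        have : β < 0 := by linarith
        rw [abs_of_neg this]; linarith
      · rw [h5] at hm2 ⊢
        have : 0 < β := by linarith
        rw [abs_of_pos this]; linarith
    have hβ0 : β ≠ 0 := by
      intro h0
      rw [h0, abs_zero] at hβ'
      linarith
    have h6 := int_e1 l u β hβ0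
    have h7 : 0 < |β| := abs_pos.mpr hβ0
    have hπ := Real.pi_gt_three
    have h8 : 1 / (Real.pi * |β|) ≤ 1 / (3 * (|(m : ℝ)| / 2)) := by
      apply one_div_le_one_div_of_le
      · nlinarith
      · nlinarith
    have h9 := h6.trans h8
    have h10 : ‖∫ t in l..u, e1 β t‖ ^ 2 ≤ (1 / (3 * (|(m : ℝ)| / 2))) ^ 2 :=
      pow_le_pow_left₀ (norm_nonneg _) h9 2
    refine h10.trans ?_
    unfold rho
    have h11 : |(m : ℝ)| ^ 2 = (m : ℝ) ^ 2 := sq_abs _
    rw [div_pow, one_pow, div_le_div_iff₀ (by positivity) (by positivity)]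
    rw [mul_pow, div_pow, h11]
    have h12 : (4 : ℝ) ≤ (m : ℝ) ^ 2 := by nlinarith [abs_nonneg (m : ℝ)]
    nlinarith

/-- integral of an exponential over a box -/
lemma boxInt (l u : Fin 5 → ℝ) (β : V) :
    ∫ x in {x : V | ∀ i, l i ≤ x i ∧ x i < u i},
      exp (2 * (Real.pi : ℂ) * I * ((inner ℝ x β : ℝ) : ℂ)) =
    ∏ i, ∫ t in Set.Ico (l i) (u i), e1 (β i) t := by
  have hmeas : MeasurableSet {x : V | ∀ i, l i ≤ x i ∧ x i < u i} := by
    have : {x : V | ∀ i, l i ≤ x i ∧ x i < u i} =
        ⋂ i, ({x : V | l i ≤ x i} ∩ {x : V | x i < u i}) := by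
      ext x; simp
    rw [this]
    refine MeasurableSet.iInter fun i => MeasurableSet.inter ?_ ?_
    · exact measurableSet_le measurable_const (by fun_prop)
    · exact measurableSet_lt (by fun_prop) measurable_const
  rw [← integral_indicator hmeas]
  have h1 : ∀ x : V, Set.indicator {x : V | ∀ i, l i ≤ x i ∧ x i < u i}
      (fun x => exp (2 * (Real.pi : ℂ) * I * ((inner ℝ x β : ℝ) : ℂ))) x =
      (fun y : Fin 5 → ℝ => ∏ i, (Set.Ico (l i) (u i)).indicator (fun t => e1 (β i) t) (y i))
        (WithLp.ofLp x) := by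
    intro x
    classical
    by_cases hx : x ∈ {x : V | ∀ i, l i ≤ x i ∧ x i < u i}
    · rw [Set.indicator_of_mem hx]
      have h2 : ∀ i, (Set.Ico (l i) (u i)).indicator (fun t => e1 (β i) t) (WithLp.ofLp x i) =
          e1 (β i) (x i) := fun i =>
        Set.indicator_of_mem (show WithLp.ofLp x i ∈ Set.Ico (l i) (u i) from hx i) _
      simp only [h2]
      unfold e1
      rw [← Complex.exp_sum]
      congr 1
      rw [← Finset.sum_mul, ← Complex.ofReal_sum]
      have h3 : (inner ℝ x β : ℝ) = ∑ i, β i * x i := by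
        simp [PiLp.inner_apply]
      rw [h3]
      push_cast
      rw [Finset.mul_sum, Finset.sum_mul]
      refine Finset.sum_congr rfl fun i _ => ?_
      ring
    · rw [Set.indicator_of_notMem hx]
      have : ∃ i, ¬ (l i ≤ x i ∧ x i < u i) := by
        by_contra hcon
        push Not at hcon
        exact hx fun i => hcon i
      obtain ⟨i, hi⟩ := this
      symm
      refine Finset.prod_eq_zero (Finset.mem_univ i) ?_
      exact Set.indicator_of_notMem
        (show WithLp.ofLp x i ∉ Set.Ico (l i) (u i) from fun h => hi h) _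
  simp_rw [h1]
  rw [(PiLp.volume_preserving_ofLp (Fin 5)).integral_comp
    (MeasurableEquiv.toLp 2 (Fin 5 → ℝ)).symm.measurableEmbedding
    (fun y : Fin 5 → ℝ => ∏ i, (Set.Ico (l i) (u i)).indicator (fun t => e1 (β i) t) (y i))]
  rw [integral_fintype_prod_volume_eq_prod
    (fun i => (Set.Ico (l i) (u i)).indicator (fun t => e1 (β i) t))]
  refine Finset.prod_congr rfl fun i _ => ?_
  rw [integral_indicator measurableSet_Ico]

/-- corners are even and distinct -/
lemma YZ_even (j j' : Fin 7) (i : Fin 5) : 2 ∣ YZ j i - YZ j' i := by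
  revert j j' i; decide

lemma YZ_inj (j j' : Fin 7) (h : ∀ i, YZ j i = YZ j' i) : j = j' := by
  revert j j' h; decide

/-- two points of a unit cube which lie in two of the cubes lie in the same -/
lemma uniq (x₀ a x x' : V) (hx : x ∈ cube x₀) (hx' : x' ∈ cube x₀) (j j' : Fin 7)
    (hj : x - a ∈ cube (iv (YZ j))) (hj' : x' - a ∈ cube (iv (YZ j'))) : j = j' := by
  apply YZ_inj
  intro i
  have h1 := hx i
  have h2 := hx' i
  have h3 := hj i
  have h4 := hj' i
  simp only [PiLp.sub_apply, iv] at h3 h4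
  obtain ⟨c, hc⟩ := YZ_even j j' i
  have h5 : ((YZ j i - YZ j' i : ℤ) : ℝ) < 2 := by push_cast; linarith
  have h6 : (-2 : ℝ) < ((YZ j i - YZ j' i : ℤ) : ℝ) := by push_cast; linarith
  have h7 : YZ j i - YZ j' i < 2 := by exact_mod_cast h5
  have h8 : -2 < YZ j i - YZ j' i := by exact_mod_cast h6
  omega

theorem t : TaskDec := by
  intro x₀ s k n hs
  classical
  set A : Set V := cube x₀ ∩ {x | x - s.1 ∈ E} with hA
  set β : V := s.2 - iv k with hβ
  have hint : ∀ x : V, F x₀ k x * starRingEnd ℂ (G s x) =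
      A.indicator (fun x => exp (2 * (Real.pi : ℂ) * I * ((inner ℝ x β : ℝ) : ℂ))) x := by
    intro x
    unfold F G
    have hexp : exp (-(2 * (Real.pi : ℂ) * I * ((inner ℝ x (iv k) : ℝ) : ℂ))) *
        starRingEnd ℂ (exp (-(2 * (Real.pi : ℂ) * I * ((inner ℝ x s.2 : ℝ) : ℂ)))) =
        exp (2 * (Real.pi : ℂ) * I * ((inner ℝ x β : ℝ) : ℂ)) := by
      rw [← Complex.exp_conj, ← Complex.exp_add]
      congr 1
      rw [hβ, inner_sub_right]
      simp only [map_neg, map_mul, Complex.conj_ofReal, Complex.conj_I, Complex.ofReal_sub]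
      have : (starRingEnd ℂ) 2 = 2 := Complex.conj_ofNat 2
      rw [this]
      ring
    by_cases h1 : x ∈ cube x₀
    · by_cases h2 : x - s.1 ∈ E
      · have h3 : x ∈ A := ⟨h1, h2⟩
        rw [Set.indicator_of_mem h1, Set.indicator_of_mem h2, Set.indicator_of_mem h3]
        simpa using hexp
      · have h3 : x ∉ A := fun h => h2 h.2
        rw [Set.indicator_of_notMem h2, Set.indicator_of_notMem h3]
        simp
    · have h3 : x ∉ A := fun h => h1 h.1
      rw [Set.indicator_of_notMem h1, Set.indicator_of_notMem h3]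
      simp
  simp_rw [hint]
  by_cases hne : A.Nonempty
  · obtain ⟨x₁, hx₁, hx₁'⟩ := hne
    obtain ⟨j, hj⟩ := Set.mem_iUnion.mp hx₁'
    set l : Fin 5 → ℝ := fun i => max (x₀ i) (s.1 i + YZ j i) with hl
    set u : Fin 5 → ℝ := fun i => min (x₀ i + 1) (s.1 i + YZ j i + 1) with hu
    have hAeq : A = {x : V | ∀ i, l i ≤ x i ∧ x i < u i} := by
      ext x
      constructor
      · rintro ⟨h1, h2⟩
        obtain ⟨j', hj'⟩ := Set.mem_iUnion.mp h2
        have : j' = j := uniq x₀ s.1 x x₁ h1 hx₁ j' j hj' hj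
        subst this
        intro i
        have h3 := h1 i
        have h4 := hj' i
        simp only [PiLp.sub_apply, iv] at h4
        simp only [hl, hu]
        refine ⟨max_le h3.1 (by linarith [h4.1]), lt_min h3.2 (by linarith [h4.2])⟩
      · intro h
        refine ⟨fun i => ?_, Set.mem_iUnion.mpr ⟨j, fun i => ?_⟩⟩
        · have h1 := h i
          simp only [hl, hu] at h1
          exact ⟨(le_max_left _ _).trans h1.1, h1.2.trans_le (min_le_left _ _)⟩
        · have h1 := h i
          simp only [hl, hu] at h1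
          have h2 := (le_max_right _ _).trans h1.1
          have h3 := h1.2.trans_le (min_le_right _ _)
          simp only [PiLp.sub_apply, iv]
          exact ⟨by linarith, by linarith⟩
    have hmeas : MeasurableSet A := by
      rw [hAeq]
      have : {x : V | ∀ i, l i ≤ x i ∧ x i < u i} =
          ⋂ i, ({x : V | l i ≤ x i} ∩ {x : V | x i < u i}) := by
        ext x; simp
      rw [this]
      refine MeasurableSet.iInter fun i => MeasurableSet.inter ?_ ?_
      · exact measurableSet_le measurable_const (by fun_prop)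
      · exact measurableSet_lt (by fun_prop) measurable_const
    rw [integral_indicator hmeas, hAeq, boxInt, norm_prod, ← Finset.prod_pow]
    refine Finset.prod_le_prod (fun i _ => by positivity) fun i _ => ?_
    have h1 := hs i
    simp only [iv] at h1
    refine oneD _ _ _ _ ?_ ?_ ?_
    · simp only [hl, hu]
      have := le_max_left (x₀ i) (s.1 i + YZ j i)
      have := min_le_left (x₀ i + 1) (s.1 i + YZ j i + 1)
      linarith
    · simp only [hβ, PiLp.sub_apply, iv]
      push_cast
      linarith [h1.1]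
    · simp only [hβ, PiLp.sub_apply, iv]
      push_cast
      linarith [h1.2]
  · have : A = ∅ := Set.not_nonempty_iff_eq_empty.mp hne
    rw [this]
    simp only [Set.indicator_empty, integral_zero, norm_zero]
    rw [zero_pow two_ne_zero]
    exact Finset.prod_nonneg fun i _ => rho_nonneg _

end Pool.Agent.H75R4.Gab.Dec
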