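import Pool.Agent.H75R4.Gab.Stmts

set_option autoImplicit false

namespace Pool.Agent.H75R4.Gab

open MeasureTheory Complex

noncomputable def zt : ℂ := exp (2 * (Real.pi : ℂ) * I / 36)

theorem zt_pow (m : ℕ) : zt ^ m = exp (2 * (Real.pi : ℂ) * I * (m / 36)) := by
  unfold zt
  rw [← Complex.exp_nat_mul]
  congr 1; ring

theorem zt18 : zt ^ 18 = -1 := by
  rw [zt_pow]
  have : 2 * (Real.pi : ℂ) * I * (((18 : ℕ) : ℂ) / 36) = (Real.pi : ℂ) * I := by push_cast; ring
  rw [this, Complex.exp_pi_mul_I]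

theorem zt12 : zt ^ 12 = zt ^ 6 - 1 := by
  have h1 : (zt ^ 6 + 1) * (zt ^ 12 - zt ^ 6 + 1) = 0 := by
    linear_combination zt18
  rcases mul_eq_zero.mp h1 with h | h
  · exfalso
    have h2 : zt ^ 6 = exp (2 * (Real.pi : ℂ) * I * (((6 : ℕ) : ℂ) / 36)) := zt_pow 6
    have h3 : 2 * (Real.pi : ℂ) * I * (((6 : ℕ) : ℂ) / 36) = ((Real.pi / 3 : ℝ) : ℂ) * I := by
      push_cast; ring
    rw [h3, Complex.exp_mul_I, ← Complex.ofReal_cos, ← Complex.ofReal_sin, Real.cos_pi_div_three,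
      Real.sin_pi_div_three] at h2
    rw [h2] at h
    have h4 := congrArg Complex.re h
    norm_num at h4
  · linear_combination h

def red (e i : ℕ) : ℤ :=
  if e < 12 then (if i = e then 1 else 0)
  else if e < 18 then (if i + 6 = e then 1 else 0) - (if i + 12 = e then 1 else 0)
  else if e < 30 then -(if i + 18 = e then 1 else 0)
  else -((if i + 24 = e then 1 else 0) - (if i + 30 = e then 1 else 0))

theorem red_spec (e : ℕ) (he : e < 36) :
    zt ^ e = ∑ i ∈ Finset.range 12, (red e i : ℂ) * zt ^ i := by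
  have h18 := zt18
  have h12 := zt12
  interval_cases e <;> simp [red, Finset.sum_range_succ] <;>
  first
  | linear_combination h12
  | linear_combination zt * h12
  | linear_combination zt ^ 2 * h12
  | linear_combination zt ^ 3 * h12
  | linear_combination zt ^ 4 * h12
  | linear_combination zt ^ 5 * h12
  | linear_combination h18
  | linear_combination zt * h18
  | linear_combination zt ^ 2 * h18
  | linear_combination zt ^ 3 * h18
  | linear_combination zt ^ 4 * h18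
  | linear_combination zt ^ 5 * h18
  | linear_combination zt ^ 6 * h18
  | linear_combination zt ^ 7 * h18
  | linear_combination zt ^ 8 * h18
  | linear_combination zt ^ 9 * h18
  | linear_combination zt ^ 10 * h18
  | linear_combination zt ^ 11 * h18
  | linear_combination zt ^ 12 * h18 - h12
  | linear_combination zt ^ 13 * h18 - zt * h12
  | linear_combination zt ^ 14 * h18 - zt ^ 2 * h12
  | linear_combination zt ^ 15 * h18 - zt ^ 3 * h12
  | linear_combination zt ^ 16 * h18 - zt ^ 4 * h12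
  | linear_combination zt ^ 17 * h18 - zt ^ 5 * h12

/-- exponents -/
def eM (j k l : Fin 7) : ℤ :=
  (YZ j 0 * (BZ k 0 - BZ l 0) + YZ j 1 * (BZ k 1 - BZ l 1) + YZ j 2 * (BZ k 2 - BZ l 2) +
    YZ j 3 * (BZ k 3 - BZ l 3) + YZ j 4 * (BZ k 4 - BZ l 4)) / 2

theorem eM_even : ∀ j k l : Fin 7,
    YZ j 0 * (BZ k 0 - BZ l 0) + YZ j 1 * (BZ k 1 - BZ l 1) + YZ j 2 * (BZ k 2 - BZ l 2) +
    YZ j 3 * (BZ k 3 - BZ l 3) + YZ j 4 * (BZ k 4 - BZ l 4) = 2 * eM j k l := by decide +kernel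

theorem van : ∀ k l : Fin 7, k ≠ l → ∀ i : Fin 12,
    ∑ j : Fin 7, red ((eM j k l) % 36).toNat (i : ℕ) = 0 := by decide +kernel

theorem exp_eM (j k l : Fin 7) :
    exp (2 * (Real.pi : ℂ) * I * ((inner ℝ (iv (YZ j)) (bv k - bv l) : ℝ) : ℂ)) =
      zt ^ ((eM j k l) % 36).toNat := by
  have h1 : (inner ℝ (iv (YZ j)) (bv k - bv l) : ℝ) = (eM j k l : ℝ) / 36 := by
    have h2 := eM_even j k l
    have h3 : ((YZ j 0 * (BZ k 0 - BZ l 0) + YZ j 1 * (BZ k 1 - BZ l 1) +
      YZ j 2 * (BZ k 2 - BZ l 2) + YZ j 3 * (BZ k 3 - BZ l 3) + YZ j 4 * (BZ k 4 - BZ l 4) : ℤ) : ℝ)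
        = ((2 * eM j k l : ℤ) : ℝ) := by rw [h2]
    push_cast at h3
    rw [PiLp.inner_apply]
    simp only [Fin.sum_univ_five]
    have e1 : ∀ i, iv (YZ j) i = (YZ j i : ℝ) := fun i => rfl
    have e2 : ∀ i, (bv k - bv l) i = (BZ k i : ℝ) / 72 - (BZ l i : ℝ) / 72 := fun i => rfl
    simp only [e1, e2, RCLike.inner_apply, conj_trivial]
    linear_combination h3 / 72
  rw [h1, zt_pow]
  have h4 : ((((eM j k l) % 36).toNat : ℕ) : ℤ) = (eM j k l) % 36 :=
    Int.toNat_of_nonneg (Int.emod_nonneg _ (by norm_num))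
  have h5 : eM j k l = (((eM j k l) % 36).toNat : ℕ) + 36 * ((eM j k l) / 36) := by
    rw [h4]; exact (Int.emod_add_mul_ediv _ _).symm
  have h6 : (((eM j k l : ℝ) / 36 : ℝ) : ℂ) =
      ((((eM j k l) % 36).toNat : ℕ) : ℂ) / 36 + (((eM j k l) / 36 : ℤ) : ℂ) := by
    have : ((eM j k l : ℤ) : ℂ) =
        (((((eM j k l) % 36).toNat : ℕ) + 36 * ((eM j k l) / 36) : ℤ) : ℂ) := by rw [← h5]
    push_cast at this ⊢
    rw [this]; ring
  rw [h6, mul_add, Complex.exp_add]
  have h7 : exp (2 * (Real.pi : ℂ) * I * (((eM j k l) / 36 : ℤ) : ℂ)) = 1 := by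
    rw [Complex.exp_eq_one_iff]
    exact ⟨(eM j k l) / 36, by ring⟩
  rw [h7, mul_one]

theorem taskHad : TaskHad := by
  intro k l hkl
  unfold W
  simp only [exp_eM]
  have h1 : ∀ j : Fin 7, zt ^ ((eM j k l) % 36).toNat =
      ∑ i ∈ Finset.range 12, (red ((eM j k l) % 36).toNat i : ℂ) * zt ^ i := by
    intro j
    apply red_spec
    have := Int.emod_lt_of_pos (eM j k l) (by norm_num : (0 : ℤ) < 36)
    omega
  simp only [h1]
  rw [Finset.sum_comm]
  apply Finset.sum_eq_zero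
  intro i hi
  rw [← Finset.sum_mul]
  have h2 := van k l hkl ⟨i, Finset.mem_range.mp hi⟩
  have h3 : (∑ j : Fin 7, (red ((eM j k l) % 36).toNat i : ℂ)) = 0 := by
    have h4 := congrArg (fun z : ℤ => (z : ℂ)) h2
    simpa using h4
  rw [h3, zero_mul]

end Pool.Agent.H75R4.Gab
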