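import Pool.Agent.H75R4.Gab.Tile

set_option autoImplicit false

namespace Pool.Agent.H75R4.Gab.MeasBk

open MeasureTheory Complex
open scoped ENNReal

theorem cube_eq (c : V) : cube c =
    (WithLp.ofLp : V → (Fin 5 → ℝ)) ⁻¹' (Set.univ.pi fun i => Set.Ico (c i) (c i + 1)) := by
  ext x
  simp [cube, Set.mem_pi]

theorem cube_meas (c : V) : MeasurableSet (cube c) := by
  rw [cube_eq]
  exact (PiLp.volume_preserving_ofLp (Fin 5)).measurable
    (MeasurableSet.univ_pi fun i => measurableSet_Ico)

theorem cube_vol (c : V) : volume (cube c) = 1 := by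
  rw [cube_eq, (PiLp.volume_preserving_ofLp (Fin 5)).measure_preimage
    (MeasurableSet.univ_pi fun i => measurableSet_Ico).nullMeasurableSet, volume_pi_pi]
  simp

theorem taskMeas : TaskMeas := by
  refine ⟨MeasurableSet.iUnion fun j => cube_meas _, ?_, cube_vol⟩
  unfold E
  rw [measure_iUnion]
  · simp [cube_vol]
  · intro j k hjk
    rw [Function.onFun, Set.disjoint_left]
    intro v hv hv'
    exact hjk (corner_sep v j k hv hv')
  · exact fun j => cube_meas _

end Pool.Agent.H75R4.Gab.MeasBk
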