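import Pool.Agent.H75R4.Gab.Tile

set_option autoImplicit false

namespace Pool.Agent.H75R4.Gab.PairBk

open MeasureTheory Complex
open scoped ENNReal

theorem sidon : ∀ j k p q : Fin 7, j ≠ k →
    (∀ i, YZ p i - YZ q i = YZ j i - YZ k i) → p = j ∧ q = k := by decide +kernel

theorem even_YZ : ∀ j i, YZ j i % 2 = 0 := by decide

theorem diag0 : ∀ p q : Fin 7, (∀ i, YZ p i - YZ q i = 0) → p = q := by decide

theorem diff_eq (a a' x z : V) (j k p q : Fin 7) (hxj : x - a ∈ cube (iv (YZ j)))
    (hxk : x - a' ∈ cube (iv (YZ k))) (hzp : z - a ∈ cube (iv (YZ p)))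
    (hzq : z - a' ∈ cube (iv (YZ q))) : ∀ i, YZ p i - YZ q i = YZ j i - YZ k i := by
  intro i
  have h1 := hxj i
  have h2 := hxk i
  have h3 := hzp i
  have h4 := hzq i
  have e : ∀ j, iv (YZ j) i = (YZ j i : ℝ) := fun j => rfl
  simp only [PiLp.sub_apply, e] at h1 h2 h3 h4
  have h5 : ((YZ p i - YZ q i - (YZ j i - YZ k i) : ℤ) : ℝ) < (2 : ℤ) := by push_cast; linarith
  have h6 : ((-2 : ℤ) : ℝ) < ((YZ p i - YZ q i - (YZ j i - YZ k i) : ℤ) : ℝ) := by
    push_cast; linarith
  have h7 : YZ p i - YZ q i - (YZ j i - YZ k i) < 2 := by exact_mod_cast h5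
  have h8 : -2 < YZ p i - YZ q i - (YZ j i - YZ k i) := by exact_mod_cast h6
  have := even_YZ p i
  have := even_YZ q i
  have := even_YZ j i
  have := even_YZ k i
  omega

/-- the exponential -/
noncomputable def en (β z : V) : ℂ := exp (-(2 * (Real.pi : ℂ) * I * ((inner ℝ z β : ℝ) : ℂ)))

theorem en_add (β z w : V) : en β (z + w) = en β z * en β w := by
  unfold en
  rw [← Complex.exp_add, inner_add_left]
  congr 1; push_cast; ring

theorem GG (a a' b b' z : V) : G (a, b) z * starRingEnd ℂ (G (a', b') z) =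
    ({z : V | z - a ∈ E ∧ z - a' ∈ E}.indicator (fun _ => (1 : ℂ)) z) * en (b - b') z := by
  unfold G en
  simp only [map_mul]
  have h1 : (starRingEnd ℂ) (exp (-(2 * (Real.pi : ℂ) * I * ((inner ℝ z b' : ℝ) : ℂ)))) =
      exp (2 * (Real.pi : ℂ) * I * ((inner ℝ z b' : ℝ) : ℂ)) := by
    rw [← Complex.exp_conj]
    congr 1
    simp
    left; exact map_ofNat _ 2
  rw [h1]
  have h2 : exp (-(2 * (Real.pi : ℂ) * I * ((inner ℝ z (b - b') : ℝ) : ℂ))) =
      exp (-(2 * (Real.pi : ℂ) * I * ((inner ℝ z b : ℝ) : ℂ))) *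
        exp (2 * (Real.pi : ℂ) * I * ((inner ℝ z b' : ℝ) : ℂ)) := by
    rw [← Complex.exp_add, inner_sub_right]
    congr 1; push_cast; ring
  rw [h2]
  by_cases h3 : z - a ∈ E <;> by_cases h4 : z - a' ∈ E <;> simp [Set.indicator, h3, h4]

/-- a box as an intersection of two cubes -/
theorem box_eq (c c' : V) : {z : V | z ∈ cube c ∧ z ∈ cube c'} =
    {z : V | ∀ i, max (c i) (c' i) ≤ z i ∧ z i < min (c i) (c' i) + 1} := by
  ext z
  simp only [cube, Set.mem_ofPred_eq]
  constructor
  · rintro ⟨h1, h2⟩ i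
    refine ⟨max_le (h1 i).1 (h2 i).1, ?_⟩
    rcases le_total (c i) (c' i) with h | h
    · rw [min_eq_left h]; exact (h1 i).2
    · rw [min_eq_right h]; exact (h2 i).2
  · intro h
    refine ⟨fun i => ⟨le_trans (le_max_left _ _) (h i).1, ?_⟩,
      fun i => ⟨le_trans (le_max_right _ _) (h i).1, ?_⟩⟩
    · have := min_le_left (c i) (c' i); linarith [(h i).2]
    · have := min_le_right (c i) (c' i); linarith [(h i).2]

theorem box_ne (hB : TaskBox) (c c' β x : V) (hx : x ∈ cube c) (hx' : x ∈ cube c')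
    (hβ : ∀ i, |β i| < 1) : ∫ z in {z : V | z ∈ cube c ∧ z ∈ cube c'}, en β z ≠ 0 := by
  rw [box_eq]
  refine hB (fun i => max (c i) (c' i)) (fun i => min (c i) (c' i) + 1) β ?_ ?_ hβ
  · intro i
    have hx1 : x ∈ {z : V | ∀ i, max (c i) (c' i) ≤ z i ∧ z i < min (c i) (c' i) + 1} := by
      rw [← box_eq]; exact ⟨hx, hx'⟩
    exact lt_of_le_of_lt (hx1 i).1 (hx1 i).2
  · intro i
    have := min_le_max (a := c i) (b := c' i)
    linarith

theorem cube_shift (z a : V) (y : V) : z - a ∈ cube y ↔ z ∈ cube (a + y) := by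
  unfold cube
  simp only [Set.mem_ofPred_eq]
  apply forall_congr'
  intro i
  rw [PiLp.sub_apply, PiLp.add_apply]
  constructor
  · rintro ⟨h1, h2⟩; constructor <;> linarith
  · rintro ⟨h1, h2⟩; constructor <;> linarith

theorem cube_eq (c : V) : cube c =
    (WithLp.ofLp : V → (Fin 5 → ℝ)) ⁻¹' (Set.univ.pi fun i => Set.Ico (c i) (c i + 1)) := by
  ext x
  simp [cube, Set.mem_pi]

theorem cube_meas (c : V) : MeasurableSet (cube c) := by
  rw [cube_eq]
  exact (PiLp.volume_preserving_ofLp (Fin 5)).measurable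
    (MeasurableSet.univ_pi fun i => measurableSet_Ico)

theorem cube_vol (c : V) : volume (cube c) = 1 := by
  rw [cube_eq, (PiLp.volume_preserving_ofLp (Fin 5)).measure_preimage
    (MeasurableSet.univ_pi fun i => measurableSet_Ico).nullMeasurableSet, volume_pi_pi]
  simp

theorem en_cont (β : V) : Continuous (en β) := by
  unfold en
  fun_prop

theorem en_norm (β z : V) : ‖en β z‖ = 1 := by
  unfold en
  have : -(2 * (Real.pi : ℂ) * I * ((inner ℝ z β : ℝ) : ℂ)) =
      ((-(2 * Real.pi * inner ℝ z β) : ℝ) : ℂ) * I := by push_cast; ring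
  rw [this, Complex.norm_exp_ofReal_mul_I]

theorem taskPair : TaskPair := by
  intro hB a a' b b' x hx hx' hlt hint
  obtain ⟨j, hj⟩ := Set.mem_iUnion.mp hx
  obtain ⟨k, hk⟩ := Set.mem_iUnion.mp hx'
  have hβ : ∀ i, |(b - b') i| < 1 := by
    intro i; rw [PiLp.sub_apply]; exact hlt i
  simp only [GG] at hint
  by_cases hjk : j = k
  · subst hjk
    refine ⟨⟨j, hj, hk⟩, ?_⟩
    -- diagonal
    set B0 : Set V := {z : V | z ∈ cube a ∧ z ∈ cube a'} with hB0
    have hB0m : MeasurableSet B0 := (cube_meas a).inter (cube_meas a')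
    have hpt : ∀ z : V, ({z : V | z - a ∈ E ∧ z - a' ∈ E}.indicator (fun _ => (1 : ℂ)) z) *
        en (b - b') z = ∑ p : Fin 7, en (b - b') (iv (YZ p)) *
          (B0.indicator (en (b - b')) (z - iv (YZ p))) := by
      intro z
      have hmem : ∀ p : Fin 7, z - iv (YZ p) ∈ B0 ↔
          z - a ∈ cube (iv (YZ p)) ∧ z - a' ∈ cube (iv (YZ p)) := by
        intro p
        rw [hB0, Set.mem_ofPred_eq, cube_shift, cube_shift z a, cube_shift z a', add_comm a,
          add_comm a', ← cube_shift z (iv (YZ p)) a', cube_shift z (iv (YZ p)) a']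
      by_cases hz : z - a ∈ E ∧ z - a' ∈ E
      · obtain ⟨p, hp⟩ := Set.mem_iUnion.mp hz.1
        obtain ⟨q, hq⟩ := Set.mem_iUnion.mp hz.2
        have hpq : p = q := by
          apply diag0
          intro i
          have := diff_eq a a' x z j j p q hj hk hp hq i
          rw [this]; ring
        subst hpq
        rw [Finset.sum_eq_single p]
        · rw [Set.indicator_of_mem (show z ∈ {z : V | z - a ∈ E ∧ z - a' ∈ E} from hz),
            Set.indicator_of_mem ((hmem p).mpr ⟨hp, hq⟩), one_mul, ← en_add]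
          congr 1; abel
        · intro r _ hr
          rw [Set.indicator_of_notMem, mul_zero]
          intro hr'
          exact hr (corner_sep _ _ _ ((hmem r).mp hr').1 hp)
        · intro h; exact absurd (Finset.mem_univ p) h
      · rw [Set.indicator_of_notMem (show z ∉ {z : V | z - a ∈ E ∧ z - a' ∈ E} from hz), zero_mul]
        symm
        apply Finset.sum_eq_zero
        intro p _
        rw [Set.indicator_of_notMem, mul_zero]
        intro hp
        have := (hmem p).mp hp
        exact hz ⟨Set.mem_iUnion.mpr ⟨p, this.1⟩, Set.mem_iUnion.mpr ⟨p, this.2⟩⟩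
    simp only [hpt] at hint
    have hI0 : Integrable (B0.indicator (en (b - b'))) volume := by
      rw [integrable_indicator_iff hB0m]
      apply Measure.integrableOn_of_bounded (M := 1)
      · exact ne_top_of_le_ne_top (by rw [cube_vol a]; exact ENNReal.one_ne_top)
          (measure_mono (fun z hz => hz.1))
      · exact (en_cont _).aestronglyMeasurable
      · exact Filter.Eventually.of_forall (fun z => (en_norm _ z).le)
    rw [integral_finsetSum] at hint
    · have h2 : ∀ p : Fin 7, ∫ z, en (b - b') (iv (YZ p)) *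
          (B0.indicator (en (b - b')) (z - iv (YZ p))) = en (b - b') (iv (YZ p)) *
          ∫ z in B0, en (b - b') z := by
        intro p
        rw [integral_const_mul, integral_sub_right_eq_self (fun z => B0.indicator (en (b - b')) z),
          integral_indicator hB0m]
      simp only [h2] at hint
      rw [← Finset.sum_mul] at hint
      have hxB : x - iv (YZ j) ∈ cube a ∧ x - iv (YZ j) ∈ cube a' := by
        constructor
        · rw [cube_shift, add_comm, ← cube_shift]; exact hj
        · rw [cube_shift, add_comm, ← cube_shift]; exact hk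
      have hne := box_ne hB a a' (b - b') (x - iv (YZ j)) hxB.1 hxB.2 hβ
      have h3 : ∑ p : Fin 7, en (b - b') (iv (YZ p)) = 0 := by
        rcases mul_eq_zero.mp hint with h | h
        · exact h
        · exact absurd h hne
      have h4 := congrArg (starRingEnd ℂ) h3
      rw [map_sum, map_zero] at h4
      unfold W
      rw [← h4]
      apply Finset.sum_congr rfl
      intro p _
      unfold en
      rw [← Complex.exp_conj]
      congr 1
      simp
      left; exact (map_ofNat _ 2).symm
    · intro p _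
      exact (hI0.comp_sub_right (iv (YZ p))).const_mul _
  · exfalso
    have hA : {z : V | z - a ∈ E ∧ z - a' ∈ E} =
        {z : V | z ∈ cube (a + iv (YZ j)) ∧ z ∈ cube (a' + iv (YZ k))} := by
      ext z
      simp only [Set.mem_ofPred_eq]
      rw [← cube_shift, ← cube_shift]
      constructor
      · rintro ⟨h1, h2⟩
        obtain ⟨p, hp⟩ := Set.mem_iUnion.mp h1
        obtain ⟨q, hq⟩ := Set.mem_iUnion.mp h2
        obtain ⟨rfl, rfl⟩ := sidon j k p q hjk (diff_eq a a' x z j k p q hj hk hp hq)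
        exact ⟨hp, hq⟩
      · rintro ⟨h1, h2⟩
        exact ⟨Set.mem_iUnion.mpr ⟨j, h1⟩, Set.mem_iUnion.mpr ⟨k, h2⟩⟩
    have hm : MeasurableSet {z : V | z ∈ cube (a + iv (YZ j)) ∧ z ∈ cube (a' + iv (YZ k))} :=
      (cube_meas _).inter (cube_meas _)
    rw [hA] at hint
    have h5 : ∀ z : V, ({z : V | z ∈ cube (a + iv (YZ j)) ∧ z ∈ cube (a' + iv (YZ k))}.indicator
        (fun _ => (1 : ℂ)) z) * en (b - b') z =
        {z : V | z ∈ cube (a + iv (YZ j)) ∧ z ∈ cube (a' + iv (YZ k))}.indicator
          (en (b - b')) z := by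
      intro z
      by_cases hz : z ∈ {z : V | z ∈ cube (a + iv (YZ j)) ∧ z ∈ cube (a' + iv (YZ k))}
      · rw [Set.indicator_of_mem hz, Set.indicator_of_mem hz, one_mul]
      · rw [Set.indicator_of_notMem hz, Set.indicator_of_notMem hz, zero_mul]
    simp only [h5] at hint
    rw [integral_indicator hm] at hint
    exact box_ne hB _ _ (b - b') x ((cube_shift _ _ _).mp hj) ((cube_shift _ _ _).mp hk) hβ hint

end Pool.Agent.H75R4.Gab.PairBk
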