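import Mathlib
import Pool.Agent.H75R4.Gab.Stmts

set_option autoImplicit false

namespace Pool.Agent.Helper961.Gab

open MeasureTheory Complex Pool.Agent.H75R4.Gab
open scoped ENNReal

lemma measurableSet_cube (c : V) : MeasurableSet (cube c) := by
  have : cube c = ⋂ i, ((fun x : V => x i) ⁻¹' Set.Ico (c i) (c i + 1)) := by
    ext x; simp [cube]
  rw [this]
  refine MeasurableSet.iInter fun i => ?_
  have hc : Continuous (fun x : V => x i) := by fun_prop
  exact hc.measurable measurableSet_Ico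

lemma int1 (a : ℝ) (m : ℤ) :
    ∫ t : ℝ, (Set.Ico a (a + 1)).indicator (fun t => exp (2 * (Real.pi : ℂ) * I * m * t)) t =
      if m = 0 then 1 else 0 := by
  rw [integral_indicator measurableSet_Ico]
  rw [integral_Ico_eq_integral_Ioc, ← intervalIntegral.integral_of_le (by linarith)]
  split_ifs with h
  · subst h; simp
  · have hc : 2 * (Real.pi : ℂ) * I * m ≠ 0 := by
      have : (Real.pi : ℂ) ≠ 0 := by exact_mod_cast Real.pi_ne_zero
      have hm : (m : ℂ) ≠ 0 := by exact_mod_cast h
      simp [this, hm, I_ne_zero]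
    have := integral_exp_mul_complex (a := a) (b := a + 1) hc
    rw [this]
    have e1 : exp (2 * (Real.pi : ℂ) * I * m * ((a + 1 : ℝ) : ℂ)) =
        exp (2 * (Real.pi : ℂ) * I * m * (a : ℂ)) := by
      rw [Complex.exp_eq_exp_iff_exists_int]
      refine ⟨m, ?_⟩
      push_cast; ring
    rw [e1]; simp

lemma inner_iv (x : V) (m : Fin 5 → ℤ) : (inner ℝ x (iv m) : ℝ) = ∑ i, x i * m i := by
  simp only [iv, PiLp.inner_apply]
  refine Finset.sum_congr rfl fun i _ => ?_
  simp [mul_comm]

lemma cubeInt (x₀ : V) (m : Fin 5 → ℤ) :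
    ∫ x in cube x₀, exp (2 * (Real.pi : ℂ) * I * ((inner ℝ x (iv m) : ℝ) : ℂ)) =
      if m = 0 then 1 else 0 := by
  rw [← integral_indicator (measurableSet_cube x₀)]
  have h1 := (PiLp.volume_preserving_toLp (Fin 5)).integral_comp
    (MeasurableEquiv.toLp 2 (Fin 5 → ℝ)).measurableEmbedding
    ((cube x₀).indicator (fun x => exp (2 * (Real.pi : ℂ) * I * ((inner ℝ x (iv m) : ℝ) : ℂ))))
  rw [← h1]
  have h2 : (fun y : Fin 5 → ℝ => (cube x₀).indicator
      (fun x => exp (2 * (Real.pi : ℂ) * I * ((inner ℝ x (iv m) : ℝ) : ℂ))) (WithLp.toLp 2 y)) =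
      fun y => ∏ i, (Set.Ico (x₀ i) (x₀ i + 1)).indicator
        (fun t : ℝ => exp (2 * (Real.pi : ℂ) * I * (m i) * t)) (y i) := by
    funext y
    by_cases hy : WithLp.toLp 2 y ∈ cube x₀
    · rw [Set.indicator_of_mem hy]
      have hy' : ∀ i, y i ∈ Set.Ico (x₀ i) (x₀ i + 1) := fun i => hy i
      rw [Finset.prod_congr rfl fun i _ => Set.indicator_of_mem (hy' i) _]
      rw [← Complex.exp_sum, inner_iv]
      congr 1
      push_cast
      rw [Finset.mul_sum]
      refine Finset.sum_congr rfl fun i _ => ?_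
      ring
    · rw [Set.indicator_of_notMem hy]
      have : ∃ i, y i ∉ Set.Ico (x₀ i) (x₀ i + 1) := by
        by_contra hcon
        push Not at hcon
        exact hy fun i => hcon i
      obtain ⟨i, hi⟩ := this
      symm
      exact Finset.prod_eq_zero (Finset.mem_univ i) (Set.indicator_of_notMem hi _)
  rw [h2]
  rw [integral_fintype_prod_volume_eq_prod
    (f := fun i => (Set.Ico (x₀ i) (x₀ i + 1)).indicator
        (fun t : ℝ => exp (2 * (Real.pi : ℂ) * I * (m i) * t)))]
  rw [Finset.prod_congr rfl fun i _ => int1 (x₀ i) (m i)]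
  split_ifs with hm
  · subst hm; simp
  · have : ∃ i, m i ≠ 0 := by
      by_contra hcon
      push Not at hcon
      exact hm (funext hcon)
    obtain ⟨i, hi⟩ := this
    exact Finset.prod_eq_zero (Finset.mem_univ i) (by simp [hi])

/-- the exponential -/
noncomputable def ek (k : Fin 5 → ℤ) (x : V) : ℂ :=
  exp (2 * (Real.pi : ℂ) * I * ((inner ℝ x (iv k) : ℝ) : ℂ))

/-- the modulated indicator -/
noncomputable def hs (s : V × V) (x : V) : ℂ :=
  E.indicator (fun _ => (1 : ℂ)) (x - s.1) *
    exp (2 * (Real.pi : ℂ) * I * ((inner ℝ x s.2 : ℝ) : ℂ))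

lemma norm_exp_real (t : ℝ) : ‖exp (2 * (Real.pi : ℂ) * I * (t : ℂ))‖ = 1 := by
  rw [Complex.norm_exp]
  simp

lemma conj_exp_real (t : ℝ) : starRingEnd ℂ (exp (2 * (Real.pi : ℂ) * I * (t : ℂ))) =
    exp (-(2 * (Real.pi : ℂ) * I * (t : ℂ))) := by
  rw [← Complex.exp_conj]
  congr 1
  simp [map_ofNat (starRingEnd ℂ) 2]

lemma conj_exp_real' (t : ℝ) : starRingEnd ℂ (exp (-(2 * (Real.pi : ℂ) * I * (t : ℂ)))) =
    exp (2 * (Real.pi : ℂ) * I * (t : ℂ)) := by
  rw [← Complex.exp_conj]
  congr 1
  simp [map_ofNat (starRingEnd ℂ) 2]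

lemma ek_cont (k : Fin 5 → ℤ) : Continuous (ek k) := by
  unfold ek
  fun_prop

lemma ek_norm (k : Fin 5 → ℤ) (x : V) : ‖ek k x‖ = 1 := norm_exp_real _

lemma hs_meas (hE : MeasurableSet E) (s : V × V) : Measurable (hs s) := by
  unfold hs
  refine Measurable.mul ?_ ?_
  · have h1 : Measurable (E.indicator (fun _ : V => (1 : ℂ))) := measurable_const.indicator hE
    exact h1.comp (measurable_id.sub_const s.1)
  · have : Continuous (fun x : V => exp (2 * (Real.pi : ℂ) * I * ((inner ℝ x s.2 : ℝ) : ℂ))) := by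
      fun_prop
    exact this.measurable

lemma hs_norm (s : V × V) (x : V) : ‖hs s x‖ = E.indicator (fun _ => (1 : ℝ)) (x - s.1) := by
  unfold hs
  rw [norm_mul, norm_exp_real, mul_one]
  by_cases h : x - s.1 ∈ E
  · simp [h]
  · simp [h]

lemma hs_norm_le (s : V × V) (x : V) : ‖hs s x‖ ≤ 1 := by
  rw [hs_norm]
  by_cases h : x - s.1 ∈ E
  · simp [h]
  · simp [h]

theorem taskBes : TaskBes := by
  intro hM x₀ s K
  obtain ⟨hE, -, hcube⟩ := hM
  set μ : Measure V := volume.restrict (cube x₀) with hμ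
  have hfin : IsFiniteMeasure μ := ⟨by rw [hμ, Measure.restrict_apply_univ, hcube]; simp⟩
  have hek : ∀ k, MemLp (ek k) 2 μ := fun k =>
    MemLp.of_bound (ek_cont k).aestronglyMeasurable 1
      (Filter.Eventually.of_forall fun x => (ek_norm k x).le)
  have hh : MemLp (hs s) 2 μ :=
    MemLp.of_bound (hs_meas hE s).aestronglyMeasurable 1
      (Filter.Eventually.of_forall fun x => hs_norm_le s x)
  have hin : ∀ (f g : V → ℂ) (hf : MemLp f 2 μ) (hg : MemLp g 2 μ),
      inner ℂ (hf.toLp f) (hg.toLp g) = ∫ x in cube x₀, g x * starRingEnd ℂ (f x) := by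
    intro f g hf hg
    rw [L2.inner_def]
    refine integral_congr_ae ?_
    filter_upwards [hf.coeFn_toLp, hg.coeFn_toLp] with x h1 h2
    rw [h1, h2]
    simp [RCLike.inner_apply]
  have hon : Orthonormal ℂ (fun k => (hek k).toLp (ek k)) := by
    classical
    rw [orthonormal_iff_ite]
    intro k l
    rw [hin]
    have e1 : ∀ x : V, ek l x * starRingEnd ℂ (ek k x) =
        exp (2 * (Real.pi : ℂ) * I * ((inner ℝ x (iv (l - k)) : ℝ) : ℂ)) := by
      intro x
      unfold ek
      rw [conj_exp_real, ← Complex.exp_add, inner_iv, inner_iv, inner_iv]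
      congr 1
      push_cast
      simp only [Pi.sub_apply]
      push_cast
      simp only [mul_sub, Finset.sum_sub_distrib]
      ring
    simp only [e1]
    rw [cubeInt]
    by_cases hkl : k = l
    · simp [hkl]
    · have : l - k ≠ 0 := fun h => hkl (sub_eq_zero.1 h).symm
      simp [hkl, this]
  have hB := hon.sum_inner_products_le (s := K) (hh.toLp (hs s))
  have hL : ∀ k, ∫ x, F x₀ k x * starRingEnd ℂ (G s x) =
      inner ℂ ((hek k).toLp (ek k)) (hh.toLp (hs s)) := by
    intro k
    rw [hin, ← integral_indicator (measurableSet_cube x₀)]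
    refine integral_congr_ae (Filter.Eventually.of_forall fun x => ?_)
    show F x₀ k x * starRingEnd ℂ (G s x) = _
    unfold F G hs ek
    by_cases hx : x ∈ cube x₀
    · rw [Set.indicator_of_mem hx, Set.indicator_of_mem hx, map_mul, conj_exp_real,
        conj_exp_real']
      have : starRingEnd ℂ (E.indicator (fun _ => (1 : ℂ)) (x - s.1)) =
          E.indicator (fun _ => (1 : ℂ)) (x - s.1) := by
        by_cases h : x - s.1 ∈ E
        · simp [h]
        · simp [h]
      rw [this]
      ring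
    · rw [Set.indicator_of_notMem hx, Set.indicator_of_notMem hx]
      simp
  have hR : ‖hh.toLp (hs s)‖ ^ 2 = (volume (cube x₀ ∩ {x | x - s.1 ∈ E})).toReal := by
    have h1 : ((‖hh.toLp (hs s)‖ ^ 2 : ℝ) : ℂ) = inner ℂ (hh.toLp (hs s)) (hh.toLp (hs s)) := by
      rw [inner_self_eq_norm_sq_to_K]
      push_cast
      rfl
    have h2 : ∀ x, hs s x * starRingEnd ℂ (hs s x) =
        (({x | x - s.1 ∈ E} : Set V).indicator (fun _ => (1 : ℂ))) x := by
      intro x
      rw [Complex.mul_conj, Complex.normSq_eq_norm_sq, hs_norm]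
      by_cases h : x - s.1 ∈ E
      · have h' : x ∈ ({x | x - s.1 ∈ E} : Set V) := h
        rw [Set.indicator_of_mem h, Set.indicator_of_mem h']
        simp
      · have h' : x ∉ ({x | x - s.1 ∈ E} : Set V) := h
        rw [Set.indicator_of_notMem h, Set.indicator_of_notMem h']
        simp
    have hmS : MeasurableSet ({x | x - s.1 ∈ E} : Set V) :=
      (measurable_id.sub_const s.1) hE
    rw [hin] at h1
    simp only [h2] at h1
    rw [integral_indicator hmS] at h1
    simp only [integral_const, MeasurableSet.univ, Measure.real, Measure.restrict_apply,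
      Set.univ_inter] at h1
    rw [Measure.restrict_apply hmS] at h1
    rw [Set.inter_comm]
    have h3 : ((‖hh.toLp (hs s)‖ ^ 2 : ℝ) : ℂ) =
        (((volume ({x | x - s.1 ∈ E} ∩ cube x₀)).toReal : ℝ) : ℂ) := by
      rw [h1]
      simp
    exact_mod_cast h3
  rw [← hR]
  refine le_trans (le_of_eq ?_) hB
  refine Finset.sum_congr rfl fun k _ => ?_
  rw [hL]

end Pool.Agent.Helper961.Gab
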