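import Pool.Agent.H75R4.Gab.Stmts

set_option autoImplicit false
set_option maxHeartbeats 4000000

open MeasureTheory Complex
open scoped ENNReal

namespace Pool.Agent.H773.Gab

open Pool.Agent.H75R4.Gab

/-- the vector of values of the exponential at the seven corners -/
noncomputable def vec (b : V) : EuclideanSpace ℂ (Fin 7) :=
  WithLp.toLp 2 (fun j => exp (2 * (Real.pi : ℂ) * I * ((inner ℝ (iv (YZ j)) b : ℝ) : ℂ)))

theorem vec_apply (b : V) (j : Fin 7) :
    vec b j = exp (2 * (Real.pi : ℂ) * I * ((inner ℝ (iv (YZ j)) b : ℝ) : ℂ)) := rfl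

theorem inner_vec (b b' : V) : inner ℂ (vec b') (vec b) = W (b - b') := by
  unfold W
  rw [PiLp.inner_apply]
  apply Finset.sum_congr rfl
  intro j _
  rw [inner_sub_right, RCLike.inner_apply, vec_apply, vec_apply, ← exp_conj, ← exp_add]
  congr 1
  simp only [map_mul, conj_I, conj_ofReal, map_ofNat]
  push_cast
  ring

theorem vec_ne (b : V) : vec b ≠ 0 := by
  intro h
  have h1 : vec b 0 = 0 := by rw [h]; rfl
  rw [vec_apply] at h1
  exact exp_ne_zero _ h1

theorem taskCount : TaskCount := by
  classical
  intro hP S hO x n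
  by_contra hcon
  push Not at hcon
  have h8 : (8 : ℕ∞) ≤ (Mset S x n).encard := by
    have := Order.add_one_le_of_lt hcon
    have e : (7 : ℕ∞) + 1 = 8 := by norm_num
    rwa [e] at this
  obtain ⟨T, hTM, hT⟩ := Set.exists_subset_encard_eq h8
  have hfin : T.Finite := by
    apply Set.finite_of_encard_eq_coe (k := 8)
    exact hT
  have : Fintype T := hfin.fintype
  have hli : LinearIndependent ℂ (fun s : T => vec s.1.2) := by
    apply linearIndependent_of_ne_zero_of_inner_eq_zero
    · intro s; exact vec_ne _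
    · intro p q hpq
      have hne : (q.1 : V × V) ≠ p.1 := fun h => hpq (Subtype.ext h.symm)
      obtain ⟨hpS, hpE, hpc⟩ := hTM p.2
      obtain ⟨hqS, hqE, hqc⟩ := hTM q.2
      have := hO q.1 hqS p.1 hpS hne
      have h2 := (hP q.1.1 p.1.1 q.1.2 p.1.2 x hqE hpE (fun i => by
        have h3 := hpc i
        have h4 := hqc i
        rw [abs_lt]; constructor <;> linarith [h3.1, h3.2, h4.1, h4.2]) this).2
      show inner ℂ (vec p.1.2) (vec q.1.2) = 0
      rw [inner_vec]; exact h2
  have hc := hli.fintype_card_le_finrank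
  rw [finrank_euclideanSpace, Fintype.card_fin] at hc
  have h9 : (Fintype.card T : ℕ∞) = 8 := by
    rw [← hT, ← Set.coe_fintypeCard T]
  have h10 : Fintype.card T = 8 := by exact_mod_cast h9
  omega

end Pool.Agent.H773.Gab
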