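import Mathlib
import Pool.Agent.H75R4.Gab.Stmts

set_option autoImplicit false
set_option maxHeartbeats 4000000

/-! # MP_7f688b_an: completeness of the exponentials on the unit cube (task `TaskFour`). -/

namespace Pool.Agent.H75R4.Gab

open MeasureTheory Complex
open scoped ENNReal

namespace Four

/-- normalised measure on the circle, as in Mathlib's file on multivariate Fourier series -/
noncomputable local instance instMS : MeasureSpace UnitAddCircle := ⟨AddCircle.haarAddCircle⟩

local instance instHaar : Measure.IsAddHaarMeasure (volume : Measure UnitAddCircle) :=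
  inferInstanceAs (Measure.IsAddHaarMeasure AddCircle.haarAddCircle)

local instance instProb : IsProbabilityMeasure (volume : Measure UnitAddCircle) :=
  inferInstanceAs (IsProbabilityMeasure AddCircle.haarAddCircle)

/-- the projection to the torus -/
noncomputable def pr (x : V) : UnitAddTorus (Fin 5) := fun i => ((x i : ℝ) : UnitAddCircle)

/-- the section of the projection -/
noncomputable def sec (t : UnitAddTorus (Fin 5)) : V :=
  WithLp.toLp 2 (fun i => ((AddCircle.measurableEquivIco (1 : ℝ) 0 (t i) : Set.Ico (0 : ℝ) (0 + 1)) : ℝ))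

theorem cube_eq : cube 0 = (@WithLp.ofLp 2 (Fin 5 → ℝ)) ⁻¹' (Set.univ.pi fun _ : Fin 5 => Set.Ico (0 : ℝ) (0 + 1)) := by
  ext x
  simp [cube]

theorem mp1 : MeasurePreserving (fun r : ℝ => (r : UnitAddCircle))
    (volume.restrict (Set.Ico (0 : ℝ) (0 + 1))) (AddCircle.haarAddCircle (T := 1)) := by
  have h := AddCircle.measurePreserving_mk (1 : ℝ) 0
  have h1 : (AddCircle.measureSpace (1 : ℝ)).volume = AddCircle.haarAddCircle (T := 1) := by
    rw [AddCircle.volume_eq_smul_haarAddCircle]
    simp
  have h2 : (volume : Measure ℝ).restrict (Set.Ico (0 : ℝ) (0 + 1)) =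
      volume.restrict (Set.Ioc (0 : ℝ) (0 + 1)) := Measure.restrict_congr_set Ico_ae_eq_Ioc
  rw [h2, ← h1]
  exact h

theorem mp2 : MeasurePreserving pr (volume.restrict (cube 0))
    (volume : Measure (UnitAddTorus (Fin 5))) := by
  have h1 : MeasurePreserving (@WithLp.ofLp 2 (Fin 5 → ℝ)) (volume.restrict (cube 0))
      (volume.restrict (Set.univ.pi fun _ : Fin 5 => Set.Ico (0 : ℝ) (0 + 1))) := by
    rw [cube_eq]
    exact (PiLp.volume_preserving_ofLp (Fin 5)).restrict_preimage
      (MeasurableSet.univ_pi fun _ => measurableSet_Ico)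
  have h2 : (volume : Measure (Fin 5 → ℝ)).restrict
      (Set.univ.pi fun _ : Fin 5 => Set.Ico (0 : ℝ) (0 + 1)) =
      Measure.pi (fun _ : Fin 5 => (volume : Measure ℝ).restrict (Set.Ico (0 : ℝ) (0 + 1))) :=
    Measure.restrict_pi_pi _ _
  rw [h2] at h1
  have h3 := measurePreserving_pi (fun _ : Fin 5 => (volume : Measure ℝ).restrict
    (Set.Ico (0 : ℝ) (0 + 1))) (fun _ : Fin 5 => AddCircle.haarAddCircle (T := 1))
    (f := fun _ => fun r : ℝ => (r : UnitAddCircle)) (fun _ => mp1)
  exact h3.comp h1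

theorem sec_meas : Measurable sec := by
  unfold sec
  refine (WithLp.measurable_toLp 2 _).comp ?_
  refine measurable_pi_lambda _ fun i => ?_
  exact measurable_subtype_coe.comp
    ((AddCircle.measurableEquivIco (1 : ℝ) 0).measurable.comp (measurable_pi_apply i))

theorem sec_pr (x : V) (hx : x ∈ cube 0) : sec (pr x) = x := by
  have h : ∀ i, ((AddCircle.measurableEquivIco (1 : ℝ) 0 ((x i : ℝ) : UnitAddCircle) :
      Set.Ico (0 : ℝ) (0 + 1)) : ℝ) = x i := by
    intro i
    have h1 := hx i
    have h2 : ((AddCircle.equivIco (1 : ℝ) 0 ((x i : ℝ) : AddCircle (1 : ℝ)) :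
      Set.Ico (0 : ℝ) (0 + 1)) : ℝ) = x i := by
      have := AddCircle.coe_equivIco_mk_apply (p := (1 : ℝ)) (x i)
      refine this.trans ?_
      rw [div_one, mul_one, Int.fract_eq_self]
      simpa using h1
    exact h2
  unfold sec pr
  ext i
  exact h i

theorem exp_eq (n : Fin 5 → ℤ) (x : V) : UnitAddTorus.mFourier (-n) (pr x) =
    exp (-(2 * (Real.pi : ℂ) * I * ((inner ℝ x (iv n) : ℝ) : ℂ))) := by
  have h1 : UnitAddTorus.mFourier (-n) (pr x) =
      ∏ i : Fin 5, fourier ((-n) i) (((x i : ℝ) : UnitAddCircle)) := rfl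
  rw [h1]
  have h2 : ∀ i : Fin 5, fourier ((-n) i) (((x i : ℝ) : UnitAddCircle)) =
      exp (-(2 * (Real.pi : ℂ) * I * (((x i * n i : ℝ)) : ℂ))) := by
    intro i
    rw [fourier_coe_apply]
    congr 1
    push_cast
    simp
    ring
  rw [Finset.prod_congr rfl fun i _ => h2 i, ← Complex.exp_sum]
  congr 1
  rw [Finset.sum_neg_distrib, ← Finset.mul_sum]
  congr 2
  rw [← Complex.ofReal_sum]
  congr 1
  rw [PiLp.inner_apply]
  refine Finset.sum_congr rfl fun i _ => ?_
  simp [iv, mul_comm]

end Four

open Four in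
/-- completeness of the exponentials on the unit cube -/
theorem taskFour : TaskFour := by
  intro f hf hn
  letI : MeasureSpace UnitAddCircle := Four.instMS
  set μ : Measure V := volume.restrict (cube 0) with hμ
  obtain ⟨f', hf'm, hff'⟩ := hf.1
  set g : UnitAddTorus (Fin 5) → ℂ := fun t => f' (sec t) with hg
  have hgm : StronglyMeasurable g := hf'm.comp_measurable sec_meas
  have hcm : MeasurableSet (cube 0) := by
    rw [cube_eq]
    exact (WithLp.measurable_ofLp 2 _) (MeasurableSet.univ_pi fun _ => measurableSet_Ico)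
  have hgp : (fun x => g (pr x)) =ᵐ[μ] f := by
    have h1 : ∀ᵐ x ∂μ, x ∈ cube 0 := ae_restrict_mem hcm
    filter_upwards [h1, hff'] with x hx hx'
    rw [hx', hg]
    change f' (sec (pr x)) = f' x
    rw [sec_pr x hx]
  have hmap : Measure.map pr μ = (volume : Measure (UnitAddTorus (Fin 5))) := mp2.map_eq
  have hgL : MemLp g 2 (volume : Measure (UnitAddTorus (Fin 5))) := by
    rw [← hmap, memLp_map_measure_iff hgm.aestronglyMeasurable mp2.measurable.aemeasurable]
    exact (memLp_congr_ae hgp).2 hf
  have hcoef : ∀ n, UnitAddTorus.mFourierCoeff (hgL.toLp g) n = 0 := by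
    intro n
    have h1 : UnitAddTorus.mFourierCoeff (hgL.toLp g) n =
        ∫ t, UnitAddTorus.mFourier (-n) t • g t := by
      refine integral_congr_ae ?_
      filter_upwards [hgL.coeFn_toLp] with t ht
      rw [ht]
    rw [h1, ← hmap, integral_map mp2.measurable.aemeasurable]
    · have h2 : ∫ x, UnitAddTorus.mFourier (-n) (pr x) • g (pr x) ∂μ = ∫ x in cube 0, f x *
          exp (-(2 * (Real.pi : ℂ) * I * ((inner ℝ x (iv n) : ℝ) : ℂ))) := by
        refine integral_congr_ae ?_
        filter_upwards [hgp] with x hx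
        rw [hx, exp_eq, smul_eq_mul, mul_comm]
      rw [h2]
      exact hn n
    · exact ((UnitAddTorus.mFourier (-n)).continuous.aestronglyMeasurable).smul
        hgm.aestronglyMeasurable
  have hz : hgL.toLp g = 0 := by
    have h1 : UnitAddTorus.mFourierBasis.repr (hgL.toLp g) = 0 := by
      ext n
      rw [UnitAddTorus.mFourierBasis_repr, hcoef]
      rfl
    exact (LinearIsometryEquiv.map_eq_zero_iff _).1 h1
  have hg0 : g =ᵐ[volume] 0 := by
    have h1 := hgL.coeFn_toLp
    rw [hz] at h1
    exact h1.symm.trans (Lp.coeFn_zero _ _ _)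
  have hg1 : (fun x => g (pr x)) =ᵐ[μ] fun _ => 0 :=
    mp2.quasiMeasurePreserving.ae_eq_comp hg0
  exact hgp.symm.trans hg1

end Pool.Agent.H75R4.Gab
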