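import Pool.Agent.H75R4.Gab.Stmts

set_option autoImplicit false

open Filter Topology

namespace Pool.Agent.H75R4.Gab

namespace NumAux

lemma rho_nonneg (m : ℤ) : 0 ≤ rho m := by unfold rho; positivity

lemma rho_summable : Summable rho := by
  have h1 : Summable (fun n : ℤ => 2 * (1 / (n : ℝ) ^ 2)) :=
    (Real.summable_one_div_int_pow.2 (by norm_num)).mul_left 2
  have h2 : Summable (fun n : ℤ => if n = 0 then (2 : ℝ) else 0) := by
    apply summable_of_ne_finset_zero (s := {0})
    intro b hb
    simp only [Finset.mem_singleton] at hb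
    simp [hb]
  refine Summable.of_nonneg_of_le rho_nonneg (fun n => ?_) (h1.add h2)
  by_cases hn : n = 0
  · subst hn
    simp [rho]
  · have hn' : (0 : ℝ) < (n : ℝ) ^ 2 := by positivity
    simp only [hn, if_false, add_zero, rho]
    rw [mul_one_div]
    apply div_le_div_of_nonneg_left (by norm_num) hn' (by linarith)

/-- the product kernel -/
noncomputable def ker (m : Fin 5 → ℤ) : ℝ := ∏ i, rho (m i)

lemma ker_nonneg (m : Fin 5 → ℤ) : 0 ≤ ker m := Finset.prod_nonneg fun _ _ => rho_nonneg _

lemma ker_summable : Summable ker := by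
  classical
  refine summable_of_sum_le (c := (∑' m, rho m) ^ 5) ker_nonneg fun u => ?_
  have h1 : u ⊆ Fintype.piFinset (fun i => u.image (fun m => m i)) := by
    intro m hm
    rw [Fintype.mem_piFinset]
    intro i
    exact Finset.mem_image_of_mem _ hm
  calc ∑ m ∈ u, ker m ≤ ∑ m ∈ Fintype.piFinset (fun i => u.image (fun m => m i)), ker m :=
        Finset.sum_le_sum_of_subset_of_nonneg h1 fun m _ _ => ker_nonneg m
    _ = ∏ i : Fin 5, ∑ m ∈ u.image (fun m => m i), rho m := by
        rw [Finset.prod_univ_sum]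
        rfl
    _ ≤ ∏ _i : Fin 5, ∑' m, rho m := by
        refine Finset.prod_le_prod (fun i _ => Finset.sum_nonneg fun m _ => rho_nonneg m) ?_
        intro i _
        exact rho_summable.sum_le_tsum _ fun m _ => rho_nonneg m
    _ = (∑' m, rho m) ^ 5 := by simp

lemma exists_L (M : ℕ) (ε : ℝ) (hε : 0 < ε) :
    ∃ L : ℕ, 0 < L ∧ ((L : ℝ) + 2 * M) ^ 5 ≤ (1 + ε) * (L : ℝ) ^ 5 := by
  have h1 : Tendsto (fun L : ℕ => (1 + (2 * M : ℝ) / (L : ℝ)) ^ 5) atTop (𝓝 ((1 + 0) ^ 5)) :=
    ((tendsto_const_div_atTop_nhds_zero_nat (2 * M : ℝ)).const_add 1).pow 5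
  rw [add_zero, one_pow] at h1
  have h2 := h1.eventually (gt_mem_nhds (show (1 : ℝ) < 1 + ε by linarith))
  obtain ⟨L, hL, hL0⟩ := (h2.and (eventually_gt_atTop 0)).exists
  refine ⟨L, hL0, ?_⟩
  have hL' : (0 : ℝ) < L := by exact_mod_cast hL0
  have h3 : ((L : ℝ) + 2 * M) ^ 5 = (1 + (2 * M : ℝ) / (L : ℝ)) ^ 5 * (L : ℝ) ^ 5 := by
    rw [← mul_pow]
    congr 1
    field_simp
  rw [h3]
  exact mul_le_mul_of_nonneg_right hL.le (by positivity)

end NumAux

open NumAux in
theorem taskNum : TaskNum := by
  classical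
  intro ε hε
  obtain ⟨s, hs⟩ := summable_iff_vanishing_norm.1 ker_summable ε hε
  let M : ℕ := s.sup (fun m => Finset.univ.sup (fun i => (m i).natAbs))
  have hM : ∀ m ∈ s, ∀ i, (m i).natAbs ≤ M := by
    intro m hm i
    have a1 : (m i).natAbs ≤ Finset.univ.sup (fun i => (m i).natAbs) :=
      Finset.le_sup (f := fun i => (m i).natAbs) (Finset.mem_univ i)
    have a2 : Finset.univ.sup (fun i => (m i).natAbs) ≤ M :=
      Finset.le_sup (f := fun m : Fin 5 → ℤ => Finset.univ.sup (fun i => (m i).natAbs)) hm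
    exact a1.trans a2
  obtain ⟨L, hL0, hL⟩ := exists_L M ε hε
  let K : Finset (Fin 5 → ℤ) := Fintype.piFinset (fun _ => Finset.Ico (0 : ℤ) L)
  let N : Finset (Fin 5 → ℤ) := Fintype.piFinset (fun _ => Finset.Ico (-(M : ℤ)) (L + M))
  have hK : (K.card : ℝ) = (L : ℝ) ^ 5 := by
    simp [K, Fintype.card_piFinset]
  have hN : (N.card : ℝ) = ((L : ℝ) + 2 * M) ^ 5 := by
    have h1 : N.card = (L + 2 * M) ^ 5 := by
      simp only [N, Fintype.card_piFinset, Finset.prod_const, Finset.card_univ, Fintype.card_fin,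
        Int.card_Ico]
      congr 1
      omega
    rw [h1]
    push_cast
    ring
  refine ⟨K, N, ?_, ?_, ?_⟩
  · refine ⟨fun _ => 0, ?_⟩
    rw [Fintype.mem_piFinset]
    intro i
    rw [Finset.mem_Ico]
    exact ⟨le_rfl, by exact_mod_cast hL0⟩
  · rw [hK, hN]
    exact hL
  · intro N' hN'
    rw [Finset.sum_comm]
    calc ∑ k ∈ K, ∑ n ∈ N', ∏ i, rho (k i - n i) ≤ ∑ _k ∈ K, ε := by
          refine Finset.sum_le_sum fun k hk => ?_
          have h1 : ∑ n ∈ N', ∏ i, rho (k i - n i) =
              ∑ m ∈ N'.image (fun n => k - n), ker m := by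
            rw [Finset.sum_image]
            · rfl
            · intro a _ b _ hab
              exact sub_right_injective hab
          rw [h1]
          have h2 : Disjoint (N'.image (fun n => k - n)) s := by
            rw [Finset.disjoint_left]
            intro m hm hms
            obtain ⟨n, hn, rfl⟩ := Finset.mem_image.1 hm
            have h3 : n ∈ N := by
              rw [Fintype.mem_piFinset]
              intro i
              have h4 := hM _ hms i
              have h5 := Finset.mem_Ico.1 (Fintype.mem_piFinset.1 hk i)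
              rw [Pi.sub_apply] at h4
              rw [Finset.mem_Ico]
              omega
            exact Finset.disjoint_left.1 hN' hn h3
          have h3 := hs _ h2
          rw [Real.norm_eq_abs] at h3
          exact (le_abs_self _).trans h3.le
      _ = ε * K.card := by
          rw [Finset.sum_const, nsmul_eq_mul]
          ring

end Pool.Agent.H75R4.Gab
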