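import Pool.Agent.H75R4.Gab.Stmts

set_option autoImplicit false

/-! Task PARS of the project H75-GABOR (helper861): Parseval for an orthogonal complete Gabor
family. -/

namespace Pool.Agent.H861R3.Gab

open MeasureTheory Complex Pool.Agent.H75R4.Gab
open scoped ENNReal

lemma G_eq (s : V × V) : G s = ((fun x : V => x - s.1) ⁻¹' E).indicator
    (fun x => exp (-(2 * (Real.pi : ℂ) * I * ((inner ℝ x s.2 : ℝ) : ℂ)))) := by
  ext x
  unfold G
  by_cases h : x - s.1 ∈ E
  · rw [Set.indicator_of_mem h, one_mul, Set.indicator_of_mem (show x ∈ (fun x : V => x - s.1) ⁻¹' E from h)]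
  · rw [Set.indicator_of_notMem h, zero_mul,
      Set.indicator_of_notMem (show x ∉ (fun x : V => x - s.1) ⁻¹' E from h)]

lemma norm_ex (x y : V) :
    ‖exp (-(2 * (Real.pi : ℂ) * I * ((inner ℝ x y : ℝ) : ℂ)))‖ = 1 := by
  rw [Complex.norm_exp]
  simp

lemma meas_pre (hM : TaskMeas) (s : V × V) : MeasurableSet ((fun x : V => x - s.1) ⁻¹' E) :=
  (measurable_sub_const s.1) hM.1

lemma vol_pre (hM : TaskMeas) (s : V × V) : volume ((fun x : V => x - s.1) ⁻¹' E) = 7 := by
  rw [(measurePreserving_sub_right volume s.1).measure_preimage hM.1.nullMeasurableSet, hM.2.1]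

lemma memLp_G (hM : TaskMeas) (s : V × V) : MemLp (G s) 2 volume := by
  rw [G_eq, memLp_indicator_iff_restrict (meas_pre hM s)]
  have : IsFiniteMeasure (volume.restrict ((fun x : V => x - s.1) ⁻¹' E)) :=
    ⟨by rw [Measure.restrict_apply_univ, vol_pre hM]; exact ENNReal.ofNat_lt_top⟩
  refine MemLp.of_bound ?_ 1 (Filter.Eventually.of_forall fun x => (norm_ex x s.2).le)
  exact (by fun_prop : Continuous fun x : V =>
    exp (-(2 * (Real.pi : ℂ) * I * ((inner ℝ x s.2 : ℝ) : ℂ)))).aestronglyMeasurable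

lemma inner_toLp {f g : V → ℂ} (hf : MemLp f 2 volume) (hg : MemLp g 2 volume) :
    inner ℂ (hg.toLp g) (hf.toLp f) = ∫ x, f x * starRingEnd ℂ (g x) := by
  rw [L2.inner_def]
  apply integral_congr_ae
  filter_upwards [hf.coeFn_toLp, hg.coeFn_toLp] with x h1 h2
  rw [h1, h2, RCLike.inner_apply]

lemma self_int (hM : TaskMeas) (s : V × V) : ∫ x, G s x * starRingEnd ℂ (G s x) = 7 := by
  have h1 : ∀ x, G s x * starRingEnd ℂ (G s x) =
      ((((fun x : V => x - s.1) ⁻¹' E).indicator (fun _ => (1 : ℝ)) x : ℝ) : ℂ) := by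
    intro x
    rw [Complex.mul_conj, Complex.normSq_eq_norm_sq, G_eq]
    by_cases h : x ∈ (fun x : V => x - s.1) ⁻¹' E
    · rw [Set.indicator_of_mem h, Set.indicator_of_mem h, norm_ex]
      norm_num
    · rw [Set.indicator_of_notMem h, Set.indicator_of_notMem h]
      norm_num
  simp_rw [h1]
  rw [integral_complex_ofReal, integral_indicator_const (1 : ℝ) (meas_pre hM s)]
  simp [Measure.real, vol_pre hM]

/-- the normalised family -/
noncomputable def e (hM : TaskMeas) (S : Set (V × V)) (s : S) : Lp ℂ 2 (volume : Measure V) :=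
  (((√7 : ℝ) : ℂ)⁻¹) • (memLp_G hM s).toLp (G s)

lemma cc : starRingEnd ℂ (((√7 : ℝ) : ℂ)⁻¹) * (((√7 : ℝ) : ℂ)⁻¹) = 1 / 7 := by
  rw [map_inv₀, Complex.conj_ofReal, ← mul_inv, ← Complex.ofReal_mul,
    Real.mul_self_sqrt (by norm_num)]
  norm_num

lemma orthonormal_e (hM : TaskMeas) {S : Set (V × V)} (hO : Orth S) : Orthonormal ℂ (e hM S) := by
  classical
  rw [orthonormal_iff_ite]
  intro s t
  rw [e, e, inner_smul_left, inner_smul_right, ← mul_assoc, cc, inner_toLp]
  by_cases h : s = t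
  · subst h
    rw [self_int hM, if_pos rfl]
    norm_num
  · rw [if_neg h, hO t t.2 s s.2 (fun h' => h (Subtype.ext h'.symm)), mul_zero]

lemma inner_e (hM : TaskMeas) {S : Set (V × V)} (s : S) {f : V → ℂ} (hf : MemLp f 2 volume) :
    inner ℂ (e hM S s) (hf.toLp f) =
      (((√7 : ℝ) : ℂ)⁻¹) * ∫ x, f x * starRingEnd ℂ (G s x) := by
  rw [e, inner_smul_left, inner_toLp, map_inv₀, Complex.conj_ofReal]

lemma seven_ne : (((√7 : ℝ) : ℂ)⁻¹) ≠ 0 := by
  apply inv_ne_zero
  exact_mod_cast (Real.sqrt_pos.2 (by norm_num : (0 : ℝ) < 7)).ne'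

lemma total_e (hM : TaskMeas) {S : Set (V × V)} (hC : Pool.Agent.H75R4.Gab.Compl S) :
    (Submodule.span ℂ (Set.range (e hM S)))ᗮ = ⊥ := by
  rw [Submodule.eq_bot_iff]
  intro f hf
  have h1 : ∀ p ∈ S, ∫ x, f x * starRingEnd ℂ (G p x) = 0 := by
    intro p hp
    have h2 := (Submodule.mem_orthogonal _ _).1 hf (e hM S ⟨p, hp⟩)
      (Submodule.subset_span ⟨⟨p, hp⟩, rfl⟩)
    have h3 := inner_e hM (⟨p, hp⟩ : S) (Lp.memLp f)
    rw [Lp.toLp_coeFn, h2] at h3
    exact (mul_eq_zero.1 h3.symm).resolve_left seven_ne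
  exact (Lp.eq_zero_iff_ae_eq_zero).2 (hC f (Lp.memLp f) h1)

theorem taskPars : TaskPars := by
  intro hM S hO hC
  have ho := orthonormal_e hM hO
  constructor
  · rw [← Set.countable_coe_iff]
    have : Fact ((2 : ℝ≥0∞) ≠ ∞) := ⟨by norm_num⟩
    refine Pairwise.countable_of_isOpen_disjoint (s := fun s : S => Metric.ball (e hM S s) (1 / 2))
      ?_ (fun _ => Metric.isOpen_ball) (fun s => ⟨e hM S s, Metric.mem_ball_self (by norm_num)⟩)
    intro s t hst
    rw [Function.onFun, Set.disjoint_left]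
    intro z hz hz'
    rw [Metric.mem_ball] at hz hz'
    have h1 : ‖e hM S s - e hM S t‖ < 1 := by
      rw [← dist_eq_norm]
      have := dist_triangle_left (e hM S s) (e hM S t) z
      linarith
    have h2 : inner ℂ (e hM S s) (e hM S s - e hM S t) = 1 := by
      rw [inner_sub_right, ho.2 hst, sub_zero, inner_self_eq_norm_sq_to_K, ho.1]
      norm_num
    have h3 := norm_inner_le_norm (𝕜 := ℂ) (e hM S s) (e hM S s - e hM S t)
    rw [h2, ho.1, norm_one] at h3
    linarith
  · intro f hf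
    let b := HilbertBasis.mkOfOrthogonalEqBot ho (total_e hM hC)
    have hb : ∀ s, b s = e hM S s := fun s =>
      congrFun (HilbertBasis.coe_mkOfOrthogonalEqBot ho (total_e hM hC)) s
    have h1 := b.hasSum_inner_mul_inner (hf.toLp f) (hf.toLp f)
    have h2 : ∀ s : S, inner ℂ (hf.toLp f) (b s) * inner ℂ (b s) (hf.toLp f) =
        (((1 / 7) * ‖∫ x, f x * starRingEnd ℂ (G s x)‖ ^ 2 : ℝ) : ℂ) := by
      intro s
      rw [hb, ← inner_conj_symm, inner_e hM s hf, map_mul, mul_mul_mul_comm, cc,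
        Complex.conj_mul']
      push_cast
      ring
    have h3 : inner ℂ (hf.toLp f) (hf.toLp f) = ((∫ x, ‖f x‖ ^ 2 : ℝ) : ℂ) := by
      rw [inner_toLp, ← integral_complex_ofReal]
      refine integral_congr_ae (Filter.Eventually.of_forall fun x => ?_)
      simp only
      rw [Complex.mul_conj']
      push_cast
      rfl
    simp_rw [h2, h3] at h1
    have h4 : HasSum (fun s : S => (1 / 7) * ‖∫ x, f x * starRingEnd ℂ (G s x)‖ ^ 2)
        (∫ x, ‖f x‖ ^ 2) := by
      exact_mod_cast h1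
    have h5 := h4.mul_left 7
    have h6 : (fun s : S => ‖∫ x, f x * starRingEnd ℂ (G s x)‖ ^ 2) =
        fun s : S => 7 * ((1 / 7) * ‖∫ x, f x * starRingEnd ℂ (G s x)‖ ^ 2) := by
      funext s
      ring
    rw [h6]
    exact h5

end Pool.Agent.H861R3.Gab
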