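import Pool.Agent.H75R4.Gab.Stmts

set_option autoImplicit false

namespace Pool.Agent.H75R4.Gab

open MeasureTheory Complex Filter

theorem YZ_inj : ∀ j k : Fin 7, YZ j = YZ k → j = k := by decide

theorem corner_sep (v : V) (j k : Fin 7) (hj : v ∈ cube (iv (YZ j))) (hk : v ∈ cube (iv (YZ k))) :
    j = k := by
  apply YZ_inj
  funext i
  have h1 := hj i
  have h2 := hk i
  have e1 : iv (YZ j) i = (YZ j i : ℝ) := rfl
  have e2 : iv (YZ k) i = (YZ k i : ℝ) := rfl
  rw [e1] at h1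
  rw [e2] at h2
  have h3 : (YZ j i : ℝ) < (YZ k i : ℝ) + 1 := lt_of_le_of_lt h1.1 h2.2
  have h4 : (YZ k i : ℝ) < (YZ j i : ℝ) + 1 := lt_of_le_of_lt h2.1 h1.2
  have h5 : YZ j i < YZ k i + 1 := by exact_mod_cast h3
  have h6 : YZ k i < YZ j i + 1 := by exact_mod_cast h4
  omega

theorem shift_iff (z a : V) (m : Fin 5 → ℤ) (j : Fin 7) :
    z + iv (fun i => m i - YZ j i) - a ∈ cube 0 ↔ z + iv m - a ∈ cube (iv (YZ j)) := by
  unfold cube
  simp only [Set.mem_ofPred_eq]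
  apply forall_congr'
  intro i
  have e1 : (z + iv (fun i => m i - YZ j i) - a) i = z i + ((m i : ℝ) - (YZ j i : ℝ)) - a i := by
    have : iv (fun i => m i - YZ j i) i = ((m i - YZ j i : ℤ) : ℝ) := rfl
    rw [PiLp.sub_apply, PiLp.add_apply, this]; push_cast; ring
  have e2 : (z + iv m - a) i = z i + (m i : ℝ) - a i := by
    have : iv m i = (m i : ℝ) := rfl
    rw [PiLp.sub_apply, PiLp.add_apply, this]
  have e3 : iv (YZ j) i = (YZ j i : ℝ) := rfl
  have e4 : (0 : V) i = 0 := rfl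
  rw [e1, e2, e3, e4]
  constructor
  · rintro ⟨h1, h2⟩; constructor <;> linarith
  · rintro ⟨h1, h2⟩; constructor <;> linarith

theorem taskTile : TaskTile := by
  intro hP S hO hSat
  let P : ℕ → Finset V := fun R =>
    (Fintype.piFinset (fun _ : Fin 5 => Finset.Icc (-(R : ℤ)) (R : ℤ))).map
      ⟨iv, fun a b h => by
        funext i
        have : iv a i = iv b i := by rw [h]
        have e1 : iv a i = (a i : ℝ) := rfl
        have e2 : iv b i = (b i : ℝ) := rfl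
        rw [e1, e2] at this
        exact Int.cast_injective this⟩
  have hex : ∀ R : ℕ, ∃ n : Fin 5 → ℤ, ∃ z ∈ cube 0, ∀ f ∈ P R, (Mset S (z + f) n).encard = 7 :=
    fun R => hSat (P R)
  choose n z hz hsat using hex
  let T : ℕ → (Fin 5 → ℤ) → Prop := fun R k =>
    {s : V × V | s ∈ S ∧ s.2 ∈ cube (iv (n R)) ∧ z R + iv k - s.1 ∈ cube 0}.encard = 7
  have hloc : ∀ (R : ℕ) (m : Fin 5 → ℤ), (∀ i, -(R : ℤ) ≤ m i ∧ m i ≤ R) →
      ∃! j : Fin 7, T R (fun i => m i - YZ j i) := by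
    intro R m hm
    have hmem : iv m ∈ P R := by
      simp only [P, Finset.mem_map, Fintype.mem_piFinset, Finset.mem_Icc]
      exact ⟨m, hm, rfl⟩
    have h7 := hsat R (iv m) hmem
    set x := z R + iv m with hx
    have hne : (Mset S x (n R)).Nonempty := by
      rw [Set.nonempty_iff_ne_empty]
      intro h0
      rw [h0] at h7
      simp at h7
    obtain ⟨s0, hs0⟩ := hne
    obtain ⟨j, hj⟩ := Set.mem_iUnion.mp hs0.2.1
    have hall : ∀ s ∈ Mset S x (n R), x - s.1 ∈ cube (iv (YZ j)) := by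
      intro s hs
      by_cases hss : s0 = s
      · rw [← hss]; exact hj
      · have hint := hO s0 hs0.1 s hs.1 hss
        have hlt : ∀ i, |s0.2 i - s.2 i| < 1 := by
          intro i
          have h1 := hs0.2.2 i
          have h2 := hs.2.2 i
          rw [abs_lt]
          constructor <;> linarith [h1.1, h1.2, h2.1, h2.2]
        obtain ⟨⟨j', hj'1, hj'2⟩, -⟩ := hP s0.1 s.1 s0.2 s.2 x hs0.2.1 hs.2.1 hlt hint
        have := corner_sep _ _ _ hj hj'1
        rw [this]; exact hj'2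
    have hkey : ∀ k : Fin 7, ∀ s : V × V,
        (s ∈ S ∧ s.2 ∈ cube (iv (n R)) ∧ z R + iv (fun i => m i - YZ k i) - s.1 ∈ cube 0) →
        s ∈ Mset S x (n R) ∧ x - s.1 ∈ cube (iv (YZ k)) := by
      intro k s hs
      have h1 := (shift_iff (z R) s.1 m k).mp hs.2.2
      exact ⟨⟨hs.1, Set.mem_iUnion.mpr ⟨k, h1⟩, hs.2.1⟩, h1⟩
    refine ⟨j, ?_, ?_⟩
    · have heq : {s : V × V | s ∈ S ∧ s.2 ∈ cube (iv (n R)) ∧
          z R + iv (fun i => m i - YZ j i) - s.1 ∈ cube 0} = Mset S x (n R) := by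
        ext s
        constructor
        · intro hs; exact (hkey j s hs).1
        · intro hs
          exact ⟨hs.1, hs.2.2, (shift_iff (z R) s.1 m j).mpr (hall s hs)⟩
      show {s : V × V | s ∈ S ∧ s.2 ∈ cube (iv (n R)) ∧
          z R + iv (fun i => m i - YZ j i) - s.1 ∈ cube 0}.encard = 7
      rw [heq]; exact h7
    · intro k hk
      have hk' : {s : V × V | s ∈ S ∧ s.2 ∈ cube (iv (n R)) ∧
          z R + iv (fun i => m i - YZ k i) - s.1 ∈ cube 0}.encard = 7 := hk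
      have hne : {s : V × V | s ∈ S ∧ s.2 ∈ cube (iv (n R)) ∧
          z R + iv (fun i => m i - YZ k i) - s.1 ∈ cube 0}.Nonempty := by
        rw [Set.nonempty_iff_ne_empty]
        intro h0
        rw [h0] at hk'
        simp at hk'
      obtain ⟨s, hs⟩ := hne
      obtain ⟨h1, h2⟩ := hkey k s hs
      exact corner_sep _ _ _ h2 (hall s h1)
  -- ultrafilter limit
  refine ⟨fun k => ∀ᶠ R in (hyperfilter ℕ : Filter ℕ), T R k, ?_⟩
  intro x
  have hbox : ∀ᶠ R : ℕ in (hyperfilter ℕ : Filter ℕ), ∀ i, -(R : ℤ) ≤ x i ∧ x i ≤ R := by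
    have h1 : ∀ᶠ R : ℕ in atTop, ∀ i, -(R : ℤ) ≤ x i ∧ x i ≤ R := by
      rw [eventually_all]
      intro i
      filter_upwards [eventually_ge_atTop (x i).natAbs] with R hR
      have : ((x i).natAbs : ℤ) ≤ R := by exact_mod_cast hR
      omega
    exact h1.filter_mono Nat.hyperfilter_le_atTop
  have hex : ∀ᶠ R : ℕ in (hyperfilter ℕ : Filter ℕ), ∃! j : Fin 7, T R (fun i => x i - YZ j i) :=
    hbox.mono (fun R hR => hloc R x hR)
  have h1 : ∃ j : Fin 7, ∀ᶠ R in (hyperfilter ℕ : Filter ℕ), T R (fun i => x i - YZ j i) := by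
    by_contra hcon
    push Not at hcon
    have h2 : ∀ j : Fin 7, ∀ᶠ R in (hyperfilter ℕ : Filter ℕ), ¬ T R (fun i => x i - YZ j i) :=
      hcon
    have h3 := eventually_all.mpr h2
    obtain ⟨R, hR1, hR2⟩ := (hex.and h3).exists
    obtain ⟨j, hj, -⟩ := hR1
    exact hR2 j hj
  obtain ⟨j, hj⟩ := h1
  refine ⟨j, hj, ?_⟩
  intro k hk
  have hk' : ∀ᶠ R in (hyperfilter ℕ : Filter ℕ), T R (fun i => x i - YZ k i) := hk
  obtain ⟨R, ⟨hR1, hR2⟩, hR3⟩ := ((hj.and hk').and hex).exists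
  exact hR3.unique hR2 hR1

end Pool.Agent.H75R4.Gab
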