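import Pool.Agent.H75R4.Gab.Asm
import Pool.Agent.H75R4.Gab.Had
import Pool.Agent.H75R4.Gab.Tile
import Pool.Agent.H75R4.Gab.TaskFour
import Pool.Agent.H75R4.Gab.MeasBk
import Pool.Agent.H75R4.Gab.TaskSpec
import Pool.Agent.H75R4.Gab.TaskBox
import Pool.Agent.H75R4.Gab.PairBk
import Pool.Agent.H75R4.Gab.TaskCount
import Pool.Agent.H75R4.Gab.TaskPars
import Pool.Agent.H75R4.Gab.TaskBes
import Pool.Agent.H75R4.Gab.TaskDec
import Pool.Agent.H75R4.Gab.TaskMeet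
import Pool.Agent.H75R4.Gab.TaskVol
import Pool.Agent.H75R4.Gab.TaskNum
import Pool.Agent.H75R4.Gab.TaskAvg
import Pool.Agent.H75R4.Gab.TaskComb

set_option autoImplicit false

namespace Pool.Agent.H75R4.Gab

open MeasureTheory

theorem final :
    ¬ (∀ (d : ℕ) (E : Set (EuclideanSpace ℝ (Fin d))),
    MeasurableSet E → 0 < volume E → volume E < ⊤ →
    (∃ Λ : Set (EuclideanSpace ℝ (Fin d)),
      (∀ l ∈ Λ, ∀ l' ∈ Λ, l ≠ l' →
        ∫ x in E, Complex.exp (2 * (Real.pi : ℂ) * Complex.I * ((inner ℝ x (l - l') : ℝ) : ℂ)) = 0) ∧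
      (∀ f : EuclideanSpace ℝ (Fin d) → ℂ, MemLp f 2 (volume.restrict E) →
        (∀ l ∈ Λ, ∫ x in E, f x * Complex.exp (-(2 * (Real.pi : ℂ) * Complex.I * ((inner ℝ x l : ℝ) : ℂ))) = 0) →
        f =ᵐ[volume.restrict E] 0)) →
    ∃ S : Set (EuclideanSpace ℝ (Fin d) × EuclideanSpace ℝ (Fin d)),
      (∀ p ∈ S, ∀ q ∈ S, p ≠ q →
        ∫ x, (E.indicator (fun _ => (1 : ℂ)) (x - p.1) *
              Complex.exp (-(2 * (Real.pi : ℂ) * Complex.I * ((inner ℝ x p.2 : ℝ) : ℂ)))) *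
            starRingEnd ℂ (E.indicator (fun _ => (1 : ℂ)) (x - q.1) *
              Complex.exp (-(2 * (Real.pi : ℂ) * Complex.I * ((inner ℝ x q.2 : ℝ) : ℂ)))) = 0) ∧
      (∀ f : EuclideanSpace ℝ (Fin d) → ℂ, MemLp f 2 volume →
        (∀ p ∈ S, ∫ x, f x * starRingEnd ℂ (E.indicator (fun _ => (1 : ℂ)) (x - p.1) *
              Complex.exp (-(2 * (Real.pi : ℂ) * Complex.I * ((inner ℝ x p.2 : ℝ) : ℂ)))) = 0) →
        f =ᵐ[volume] 0)) :=
  assemble taskHad taskFour MeasBk.taskMeas Pool.Agent.H283R3.GabSpec.taskSpec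
    Pool.Agent.H168DD.Gab.taskBox PairBk.taskPair Pool.Agent.H773.Gab.taskCount
    Pool.Agent.H861R3.Gab.taskPars Pool.Agent.Helper961.Gab.taskBes Dec.t taskMeet
    Pool.Agent.H700R3.Gab.taskVol taskNum taskAvg Pool.Agent.H105R3.Gab.taskComb taskTile

end Pool.Agent.H75R4.Gab
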