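import Pool.Agent.H75R4.Gab.Stmts

set_option autoImplicit false

/-! Task Meas of project H75-GABOR (helper444). -/

namespace Pool.Agent.H75R4.Gab.MeasH444

open MeasureTheory Complex
open scoped ENNReal

theorem cube_eq (c : V) : cube c =
    (WithLp.ofLp) ⁻¹' (Set.pi Set.univ (fun i : Fin 5 => Set.Ico (c i) (c i + 1))) := by
  ext x
  simp only [cube, Set.mem_setOf_eq, Set.mem_preimage, Set.mem_pi, Set.mem_univ, true_imp_iff,
    Set.mem_Ico]

theorem meas_pi (c : V) :
    MeasurableSet (Set.pi Set.univ (fun i : Fin 5 => Set.Ico (c i) (c i + 1))) :=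
  MeasurableSet.univ_pi (fun _ => measurableSet_Ico)

theorem meas_cube (c : V) : MeasurableSet (cube c) := by
  rw [cube_eq]
  exact (PiLp.volume_preserving_ofLp (Fin 5)).measurable (meas_pi c)

theorem vol_cube (c : V) : volume (cube c) = 1 := by
  rw [cube_eq, (PiLp.volume_preserving_ofLp (Fin 5)).measure_preimage (meas_pi c).nullMeasurableSet,
    Real.volume_pi_Ico]
  simp

theorem YZ_inj : Function.Injective YZ := by
  have h : ∀ j k : Fin 7, (∀ i, YZ j i = YZ k i) → j = k := by decide
  intro j k hjk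
  exact h j k (fun i => congrFun hjk i)

theorem disj : Pairwise (Function.onFun Disjoint fun j => cube (iv (YZ j))) := by
  intro j k hjk
  show Disjoint (cube (iv (YZ j))) (cube (iv (YZ k)))
  rw [Set.disjoint_left]
  intro x hx hx'
  apply hjk
  apply YZ_inj
  funext i
  have h1 : (YZ j i : ℝ) ≤ x i ∧ x i < (YZ j i : ℝ) + 1 := hx i
  have h2 : (YZ k i : ℝ) ≤ x i ∧ x i < (YZ k i : ℝ) + 1 := hx' i
  rw [← Int.floor_eq_iff.mpr h1, ← Int.floor_eq_iff.mpr h2]

theorem taskMeas : TaskMeas := by
  refine ⟨MeasurableSet.iUnion fun j => meas_cube _, ?_, vol_cube⟩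
  unfold E
  rw [measure_iUnion disj (fun j => meas_cube _)]
  simp only [vol_cube, tsum_fintype]
  simp

end Pool.Agent.H75R4.Gab.MeasH444
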