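import Mathlib
import Pool.Agent.H75R4.Gab.Stmts

set_option autoImplicit false

/-! Task `TaskMeet` of MP_7f688b_an: if the unit cube at `x₀` meets a unit cube, then that cube
contains one of the 32 points `x₀ + ε`. -/

namespace Pool.Agent.H75R4.Gab

open MeasureTheory Complex
open scoped ENNReal

/-- the 32 corner shifts -/
noncomputable def meetEps (e : Fin 5 → Bool) : V := WithLp.toLp 2 (fun i => if e i then (1 : ℝ) else 0)

theorem meet_aux (x₀ x s c : V) (hx : x ∈ cube x₀) (hs : x - s ∈ cube c) :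
    ∃ e : Fin 5 → Bool, (x₀ + meetEps e) - s ∈ cube c := by
  classical
  refine ⟨fun i => decide (x₀ i - s i < c i), fun i => ?_⟩
  have h1 := hx i
  have h2 := hs i
  have h2' : c i ≤ x i - s i ∧ x i - s i < c i + 1 := by simpa using h2
  have key : ((x₀ + meetEps (fun i => decide (x₀ i - s i < c i))) - s) i =
      x₀ i + (if x₀ i - s i < c i then (1 : ℝ) else 0) - s i := by
    simp [meetEps]
  rw [key]
  obtain ⟨h1a, h1b⟩ := h1
  obtain ⟨h2a, h2b⟩ := h2'
  by_cases h : x₀ i - s i < c i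
  · rw [if_pos h]
    constructor <;> linarith
  · rw [if_neg h]
    push Not at h
    constructor <;> linarith

theorem taskMeet : TaskMeet := by
  classical
  intro S hS x₀ n
  have hsub : {s | s ∈ S ∧ s.2 ∈ cube (iv n) ∧ (cube x₀ ∩ {x | x - s.1 ∈ E}).Nonempty} ⊆
      ⋃ e : Fin 5 → Bool, Mset S (x₀ + meetEps e) n := by
    rintro s ⟨hsS, hs2, x, hx0, hxE⟩
    have hxE' : x - s.1 ∈ E := hxE
    unfold E at hxE'
    obtain ⟨j, hj⟩ := Set.mem_iUnion.1 hxE'
    obtain ⟨e, he⟩ := meet_aux x₀ x s.1 (iv (YZ j)) hx0 hj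
    refine Set.mem_iUnion.2 ⟨e, hsS, ?_, hs2⟩
    exact Set.mem_iUnion.2 ⟨j, he⟩
  refine (Set.encard_le_encard hsub).trans ((Set.encard_iUnion_le_of_fintype _).trans ?_)
  refine (Finset.sum_le_sum (fun e _ => hS (x₀ + meetEps e) n)).trans ?_
  rw [Finset.sum_const]
  simp
  norm_num

end Pool.Agent.H75R4.Gab
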